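import Pool.Agent.W_MP_6c8c83_pr.TraceIneq

/-!
Finite reversible continuous-time Markov chains: kernels, symmetry, `L²` distances, and the
group averaging argument.
-/

namespace Pool.Agent.W_MP_6c8c83_pr

open scoped BigOperators Matrix
open NormedSpace (exp)

variable {S : Type*} [Fintype S] [DecidableEq S]

section Basic

variable (Q : Matrix S S ℝ) (π : S → ℝ)

lemma exp_rev (hrev : ∀ z w, π z * Q z w = π w * Q w z) (t : ℝ) (z w : S) :
    π z * exp (t • Q) z w = π w * exp (t • Q) w z := by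
  have h1 : (t • Qᵀ) * Matrix.diagonal π = Matrix.diagonal π * (t • Q) := by
    ext a b
    rw [Matrix.mul_diagonal, Matrix.diagonal_mul]
    simp only [Matrix.smul_apply, Matrix.transpose_apply, smul_eq_mul]
    have := hrev a b
    linear_combination (-t) * this
  have h2 := exp_intertwine _ _ _ h1
  have h3 : exp (t • Qᵀ) = (exp (t • Q))ᵀ := by
    rw [← Matrix.exp_transpose, Matrix.transpose_smul]
  rw [h3] at h2
  have h4 := congrFun (congrFun h2 z) w
  rw [Matrix.mul_diagonal, Matrix.diagonal_mul, Matrix.transpose_apply] at h4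
  linear_combination -h4

lemma exp_row_sum (hQ : ∀ z, ∑ w, Q z w = 0) (t : ℝ) (z : S) :
    ∑ w, exp (t • Q) z w = 1 := by
  have h1 : (t • Q) * (Matrix.of fun (_ : S) (_ : Unit) => (1 : ℝ))
      = (Matrix.of fun (_ : S) (_ : Unit) => (1 : ℝ)) * (0 : Matrix Unit Unit ℝ) := by
    ext a b
    simp only [Matrix.mul_apply, Matrix.smul_apply, Matrix.of_apply, smul_eq_mul, mul_one,
      Matrix.zero_apply, mul_zero, Finset.sum_const_zero]
    rw [← Finset.mul_sum, hQ, mul_zero]
  have h2 := exp_intertwine _ _ _ h1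
  rw [NormedSpace.exp_zero, Matrix.mul_one] at h2
  have h3 := congrFun (congrFun h2 z) ()
  simpa [Matrix.mul_apply] using h3

/-- centered density -/
noncomputable def cden (t : ℝ) (z w : S) : ℝ := exp (t • Q) z w / π w - 1

variable {Q π}

lemma cden_symm (hπ : ∀ z, 0 < π z) (hrev : ∀ z w, π z * Q z w = π w * Q w z)
    (t : ℝ) (z w : S) : cden Q π t z w = cden Q π t w z := by
  unfold cden
  have h1 : exp (t • Q) z w / π w = exp (t • Q) w z / π z := by
    rw [div_eq_div_iff (hπ w).ne' (hπ z).ne']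
    have := exp_rev Q π hrev t z w
    linear_combination this
  rw [h1]

lemma cden_sum_zero (hπ : ∀ z, 0 < π z) (hπ1 : ∑ z, π z = 1) (hQ : ∀ z, ∑ w, Q z w = 0)
    (t : ℝ) (z : S) : ∑ w, π w * cden Q π t z w = 0 := by
  unfold cden
  have h1 : ∀ w, π w * (exp (t • Q) z w / π w - 1) = exp (t • Q) z w - π w := by
    intro w; field_simp [(hπ w).ne']
  simp_rw [h1]
  rw [Finset.sum_sub_distrib, exp_row_sum Q hQ, hπ1, sub_self]

lemma cden_add (hπ : ∀ z, 0 < π z) (hπ1 : ∑ z, π z = 1) (hQ : ∀ z, ∑ w, Q z w = 0)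
    (hrev : ∀ z w, π z * Q z w = π w * Q w z) (s t : ℝ) (z w : S) :
    cden Q π (s + t) z w = ∑ v, π v * (cden Q π s z v * cden Q π t w v) := by
  have h1 : ∀ v, π v * (cden Q π s z v * cden Q π t w v)
      = exp (s • Q) z v * exp (t • Q) v w / π w - exp (s • Q) z v - exp (t • Q) w v + π v := by
    intro v
    have h2 : cden Q π t w v = exp (t • Q) v w / π w - 1 := by
      rw [cden_symm hπ hrev]; rfl
    have h3 : cden Q π t w v = exp (t • Q) w v / π v - 1 := rfl
    have h4 : exp (t • Q) w v = π v * (exp (t • Q) v w / π w) := by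
      have : exp (t • Q) w v / π v = exp (t • Q) v w / π w := by linarith
      rw [← this]; field_simp [(hπ v).ne']
    have h5 : cden Q π s z v = exp (s • Q) z v / π v - 1 := rfl
    rw [h2, h5, h4]
    field_simp [(hπ v).ne', (hπ w).ne']
    ring
  simp_rw [h1]
  rw [Finset.sum_add_distrib, Finset.sum_sub_distrib, Finset.sum_sub_distrib, exp_row_sum Q hQ,
    exp_row_sum Q hQ, hπ1, ← Finset.sum_div]
  have h6 : ∑ v, exp (s • Q) z v * exp (t • Q) v w = exp ((s + t) • Q) z w := by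
    rw [exp_smul_add, Matrix.mul_apply]
  rw [h6]
  unfold cden
  ring

/-- `L^∞` distance from `L²` distances. -/
lemma cden_abs_le (hπ : ∀ z, 0 < π z) (hπ1 : ∑ z, π z = 1) (hQ : ∀ z, ∑ w, Q z w = 0)
    (hrev : ∀ z w, π z * Q z w = π w * Q w z) (t : ℝ) (δ : ℝ)
    (hδ : ∀ z, ∑ v, π v * cden Q π t z v ^ 2 ≤ δ) (z w : S) :
    |cden Q π (t + t) z w| ≤ δ := by
  rw [cden_add hπ hπ1 hQ hrev]
  have h1 : ∀ v, |π v * (cden Q π t z v * cden Q π t w v)|
      ≤ (π v * cden Q π t z v ^ 2 + π v * cden Q π t w v ^ 2) / 2 := by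
    intro v
    rw [abs_mul, abs_mul, abs_of_pos (hπ v)]
    have := two_mul_le_add_sq |cden Q π t z v| |cden Q π t w v|
    rw [sq_abs, sq_abs] at this
    have h2 := mul_le_mul_of_nonneg_left this (hπ v).le
    linarith
  calc |∑ v, π v * (cden Q π t z v * cden Q π t w v)|
      ≤ ∑ v, |π v * (cden Q π t z v * cden Q π t w v)| := Finset.abs_sum_le_sum_abs _ _
    _ ≤ ∑ v, (π v * cden Q π t z v ^ 2 + π v * cden Q π t w v ^ 2) / 2 :=
        Finset.sum_le_sum (fun v _ => h1 v)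
    _ = ((∑ v, π v * cden Q π t z v ^ 2) + ∑ v, π v * cden Q π t w v ^ 2) / 2 := by
        rw [← Finset.sum_div, Finset.sum_add_distrib]
    _ ≤ δ := by linarith [hδ z, hδ w]

/-- Hilbert-Schmidt norm of the centered kernel. -/
lemma sum_cden_sq (hπ : ∀ z, 0 < π z) (hπ1 : ∑ z, π z = 1) (hQ : ∀ z, ∑ w, Q z w = 0)
    (hrev : ∀ z w, π z * Q z w = π w * Q w z) (t : ℝ) :
    ∑ z, π z * ∑ w, π w * cden Q π t z w ^ 2 = (exp ((t + t) • Q)).trace - 1 := by
  have h1 : ∀ z, π z * ∑ w, π w * cden Q π t z w ^ 2 = exp ((t + t) • Q) z z - π z := by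
    intro z
    have h2 : ∑ w, π w * cden Q π t z w ^ 2 = cden Q π (t + t) z z := by
      rw [cden_add hπ hπ1 hQ hrev]
      apply Finset.sum_congr rfl; intro w _; ring
    rw [h2]; unfold cden
    field_simp [(hπ z).ne']
  simp_rw [h1]
  rw [Finset.sum_sub_distrib, hπ1]
  rfl

end Basic

section Averaging

/-- Average of a function over a group of permutations. -/
noncomputable def avg (H : Subgroup (Equiv.Perm S)) [Fintype H] (u : S → ℝ) (w : S) : ℝ :=
  (∑ g : H, u ((g : Equiv.Perm S) w)) / Fintype.card H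

variable {Q : Matrix S S ℝ} {π : S → ℝ}
variable (H : Subgroup (Equiv.Perm S)) [Fintype H]

omit [Fintype S] [DecidableEq S] in
lemma card_pos' : (0 : ℝ) < Fintype.card H := by
  exact_mod_cast Fintype.card_pos

omit [Fintype S] [DecidableEq S] in
lemma avg_inv (u : S → ℝ) (h : H) (w : S) : avg H u ((h : Equiv.Perm S) w) = avg H u w := by
  unfold avg
  congr 1
  apply Fintype.sum_equiv (Equiv.mulRight h)
  intro g
  simp [Equiv.coe_mulRight]

omit [Fintype S] [DecidableEq S] in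
lemma avg_nonneg (u : S → ℝ) (hu : ∀ w, 0 ≤ u w) (w : S) : 0 ≤ avg H u w :=
  div_nonneg (Finset.sum_nonneg (fun _ _ => hu _)) (card_pos' H).le

omit [Fintype S] [DecidableEq S] in
lemma avg_le (u : S → ℝ) (M : ℝ) (hu : ∀ w, u w ≤ M) (w : S) : avg H u w ≤ M := by
  unfold avg
  rw [div_le_iff₀ (card_pos' H)]
  calc ∑ g : H, u ((g : Equiv.Perm S) w) ≤ ∑ _g : H, M := Finset.sum_le_sum (fun g _ => hu _)
    _ = M * Fintype.card H := by simp [mul_comm]

omit [DecidableEq S] [Fintype H] in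
lemma sum_perm (hπg : ∀ g : H, ∀ z, π ((g : Equiv.Perm S) z) = π z) (f : S → ℝ) (g : H) :
    ∑ w, π w * f ((g : Equiv.Perm S) w) = ∑ w, π w * f w := by
  apply Fintype.sum_equiv (g : Equiv.Perm S)
  intro w
  rw [hπg]

omit [DecidableEq S] in
lemma sum_avg (hπg : ∀ g : H, ∀ z, π ((g : Equiv.Perm S) z) = π z) (u : S → ℝ) :
    ∑ w, π w * avg H u w = ∑ w, π w * u w := by
  unfold avg
  have h1 : ∀ w, π w * ((∑ g : H, u ((g : Equiv.Perm S) w)) / Fintype.card H)
      = (∑ g : H, π w * u ((g : Equiv.Perm S) w)) / Fintype.card H := by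
    intro w; rw [← Finset.mul_sum]; ring
  simp_rw [h1]
  rw [← Finset.sum_div, Finset.sum_comm]
  simp_rw [sum_perm H hπg u]
  rw [Finset.sum_const, Finset.card_univ, nsmul_eq_mul]
  field_simp [(card_pos' H).ne']

omit [DecidableEq S] in
/-- The key Cauchy-Schwarz inequality. -/
lemma avg_sq_le (hπ : ∀ z, 0 < π z)
    (hπg : ∀ g : H, ∀ z, π ((g : Equiv.Perm S) z) = π z) (u : S → ℝ) (hu : ∀ w, 0 ≤ u w)
    (φ : S → ℝ) :
    (∑ g : H, (∑ w, π w * (φ w * u ((g : Equiv.Perm S) w))) ^ 2) / Fintype.card H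
      ≤ (∑ w, π w * φ w ^ 2) * ∑ w, π w * avg H u w ^ 2 := by
  set B : ℝ := ∑ w, π w * avg H u w ^ 2 with hB
  have hBn : 0 ≤ B := Finset.sum_nonneg (fun w _ => mul_nonneg (hπ w).le (sq_nonneg _))
  -- second factor
  have hsecond : ∀ g : H, ∑ w, π w * (avg H u w * u ((g : Equiv.Perm S) w)) = B := by
    intro g
    have h2 : ∀ h : H, ∑ w, π w * (avg H u w * u ((h : Equiv.Perm S) w))
        = ∑ w, π w * (avg H u w * u w) := by
      intro h
      rw [← sum_perm H hπg (fun x => avg H u x * u x) h]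
      apply Finset.sum_congr rfl
      intro w _
      simp only [avg_inv]
    have h3 : B = (∑ h : H, ∑ w, π w * (avg H u w * u ((h : Equiv.Perm S) w)))
        / Fintype.card H := by
      rw [hB, Finset.sum_comm, Finset.sum_div]
      apply Finset.sum_congr rfl
      intro w _
      rw [← Finset.mul_sum, ← Finset.mul_sum]
      have : ∑ i : H, u ((i : Equiv.Perm S) w) = avg H u w * Fintype.card H := by
        unfold avg; field_simp [(card_pos' H).ne']
      rw [this]
      field_simp [(card_pos' H).ne']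
    rw [h3, h2 g]
    simp_rw [h2]
    rw [Finset.sum_const, Finset.card_univ, nsmul_eq_mul]
    field_simp [(card_pos' H).ne']
  -- pointwise Cauchy-Schwarz
  have hCS : ∀ g : H, (∑ w, π w * (φ w * u ((g : Equiv.Perm S) w))) ^ 2
      ≤ (∑ w, π w * (φ w ^ 2 * (u ((g : Equiv.Perm S) w) / avg H u w))) * B := by
    intro g
    rw [← hsecond g]
    apply Finset.sum_sq_le_sum_mul_sum_of_sq_le_mul
    · intro w _
      exact mul_nonneg (hπ w).le (mul_nonneg (sq_nonneg _) (div_nonneg (hu _) (avg_nonneg H u hu w)))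
    · intro w _
      exact mul_nonneg (hπ w).le (mul_nonneg (avg_nonneg H u hu w) (hu _))
    · intro w _
      by_cases h0 : avg H u w = 0
      · have h1 : u ((g : Equiv.Perm S) w) = 0 := by
          have h2 : ∑ g : H, u ((g : Equiv.Perm S) w) = 0 := by
            have : ∑ i : H, u ((i : Equiv.Perm S) w) = avg H u w * Fintype.card H := by
              unfold avg; field_simp [(card_pos' H).ne']
            rw [this, h0, zero_mul]
          exact (Finset.sum_eq_zero_iff_of_nonneg (fun _ _ => hu _)).mp h2 g (Finset.mem_univ _)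
        rw [h1]; simp
      · apply le_of_eq; field_simp [h0]
  have hfirst : (∑ g : H, ∑ w, π w * (φ w ^ 2 * (u ((g : Equiv.Perm S) w) / avg H u w)))
      ≤ (∑ w, π w * φ w ^ 2) * Fintype.card H := by
    rw [Finset.sum_comm, Finset.sum_mul]
    apply Finset.sum_le_sum
    intro w _
    rw [← Finset.mul_sum, ← Finset.mul_sum, ← Finset.sum_div]
    have : ∑ i : H, u ((i : Equiv.Perm S) w) = avg H u w * Fintype.card H := by
      unfold avg; field_simp [(card_pos' H).ne']
    rw [this]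
    by_cases h0 : avg H u w = 0
    · rw [h0]; simp
      exact mul_nonneg (mul_nonneg (hπ w).le (sq_nonneg _)) (by positivity)
    · rw [mul_div_assoc, mul_comm (avg H u w), div_mul_cancel₀ _ h0, ← mul_assoc]
  rw [div_le_iff₀ (card_pos' H)]
  calc (∑ g : H, (∑ w, π w * (φ w * u ((g : Equiv.Perm S) w))) ^ 2)
      ≤ ∑ g : H, (∑ w, π w * (φ w ^ 2 * (u ((g : Equiv.Perm S) w) / avg H u w))) * B :=
        Finset.sum_le_sum (fun g _ => hCS g)
    _ = (∑ g : H, ∑ w, π w * (φ w ^ 2 * (u ((g : Equiv.Perm S) w) / avg H u w))) * B := by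
        rw [Finset.sum_mul]
    _ ≤ ((∑ w, π w * φ w ^ 2) * Fintype.card H) * B := mul_le_mul_of_nonneg_right hfirst hBn
    _ = (∑ w, π w * φ w ^ 2) * B * Fintype.card H := by ring

omit [Fintype H] in
/-- Permutations preserving the generator preserve the semigroup. -/
lemma exp_perm (hQg : ∀ g : H, ∀ z w, Q ((g : Equiv.Perm S) z) ((g : Equiv.Perm S) w) = Q z w)
    (t : ℝ) (g : H) (z w : S) :
    exp (t • Q) ((g : Equiv.Perm S) z) ((g : Equiv.Perm S) w) = exp (t • Q) z w := by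
  set e : Equiv.Perm S := (g : Equiv.Perm S) with he
  let J : Matrix S S ℝ := Matrix.of (fun a b => if b = e a then (1 : ℝ) else 0)
  have hJr : ∀ (M : Matrix S S ℝ) (a b : S), (M * J) a (e b) = M a b := by
    intro M a b
    simp [Matrix.mul_apply, J]
  have hJl : ∀ (M : Matrix S S ℝ) (a b : S), (J * M) a b = M (e a) b := by
    intro M a b
    simp [Matrix.mul_apply, J]
  have h1 : (t • Q) * J = J * (t • Q) := by
    ext a b
    obtain ⟨b, rfl⟩ := e.surjective b
    rw [hJr, hJl]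
    simp only [Matrix.smul_apply, smul_eq_mul]
    rw [hQg g a b]
  have h2 := exp_intertwine _ _ _ h1
  have h3 := congrFun (congrFun h2 z) (e w)
  rw [hJr, hJl] at h3
  exact h3.symm

omit [Fintype H] in
lemma cden_perm (hQg : ∀ g : H, ∀ z w, Q ((g : Equiv.Perm S) z) ((g : Equiv.Perm S) w) = Q z w)
    (hπg : ∀ g : H, ∀ z, π ((g : Equiv.Perm S) z) = π z)
    (t : ℝ) (g : H) (z w : S) :
    cden Q π t ((g : Equiv.Perm S) z) ((g : Equiv.Perm S) w) = cden Q π t z w := by
  unfold cden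
  rw [exp_perm H hQg, hπg]

omit [Fintype H] in
/-- Exponential decay of the variance of group invariant functions. -/
lemma decay
    (hrev : ∀ z w, π z * Q z w = π w * Q w z) (hQ : ∀ z, ∑ w, Q z w = 0)
    (hQg : ∀ g : H, ∀ z w, Q ((g : Equiv.Perm S) z) ((g : Equiv.Perm S) w) = Q z w)
    (γ : ℝ)
    (hgap : ∀ f : S → ℝ, (∀ g : H, ∀ z, f ((g : Equiv.Perm S) z) = f z) → ∑ z, π z * f z = 0 →
      ∑ z, π z * (f z * (Q *ᵥ f) z) ≤ - (γ * ∑ z, π z * f z ^ 2))
    (f : S → ℝ) (hf : ∀ g : H, ∀ z, f ((g : Equiv.Perm S) z) = f z) (hf0 : ∑ z, π z * f z = 0)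
    (t : ℝ) (ht : 0 ≤ t) :
    ∑ z, π z * ((exp (t • Q)) *ᵥ f) z ^ 2 ≤ Real.exp (-(2 * γ * t)) * ∑ z, π z * f z ^ 2 := by
  have hinv : ∀ t : ℝ, ∀ g : H, ∀ z, ((exp (t • Q)) *ᵥ f) ((g : Equiv.Perm S) z)
      = ((exp (t • Q)) *ᵥ f) z := by
    intro t g z
    simp only [Matrix.mulVec, dotProduct]
    rw [← Equiv.sum_comp (g : Equiv.Perm S)]
    apply Finset.sum_congr rfl
    intro w _
    rw [exp_perm H hQg, hf]
  have hmean : ∀ t : ℝ, ∑ z, π z * ((exp (t • Q)) *ᵥ f) z = 0 := by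
    intro t
    simp only [Matrix.mulVec, dotProduct]
    simp_rw [Finset.mul_sum]
    rw [Finset.sum_comm]
    rw [← hf0]
    apply Finset.sum_congr rfl
    intro w _
    have h1 : ∀ z, π z * (exp (t • Q) z w * f w) = (π w * f w) * exp (t • Q) w z := by
      intro z
      have := exp_rev Q π hrev t z w
      linear_combination (f w) * this
    simp_rw [h1]
    rw [← Finset.mul_sum, exp_row_sum Q hQ, mul_one]
  have hder : ∀ t z, HasDerivAt (fun s : ℝ => ((exp (s • Q)) *ᵥ f) z)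
      ((Q *ᵥ ((exp (t • Q)) *ᵥ f)) z) t := by
    intro t z
    rw [Matrix.mulVec_mulVec]
    simp only [Matrix.mulVec, dotProduct]
    apply HasDerivAt.fun_sum
    intro w _
    exact (hasDerivAt_exp_smul Q t z w).mul_const _
  have hderφ : ∀ t, HasDerivAt (fun s : ℝ => ∑ z, π z * ((exp (s • Q)) *ᵥ f) z ^ 2)
      (2 * ∑ z, π z * (((exp (t • Q)) *ᵥ f) z * (Q *ᵥ ((exp (t • Q)) *ᵥ f)) z)) t := by
    intro t
    rw [Finset.mul_sum]
    apply HasDerivAt.fun_sum
    intro z _
    have h1 := ((hder t z).pow 2).const_mul (π z)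
    refine h1.congr_deriv ?_
    simp
    ring
  have hder2 : ∀ t, HasDerivAt (fun s : ℝ => Real.exp (2 * γ * s) *
      ∑ z, π z * ((exp (s • Q)) *ᵥ f) z ^ 2)
      (Real.exp (2 * γ * t) * (2 * γ * ∑ z, π z * ((exp (t • Q)) *ᵥ f) z ^ 2 +
        2 * ∑ z, π z * (((exp (t • Q)) *ᵥ f) z * (Q *ᵥ ((exp (t • Q)) *ᵥ f)) z))) t := by
    intro t
    have h1 : HasDerivAt (fun s : ℝ => Real.exp (2 * γ * s)) (Real.exp (2 * γ * t) * (2 * γ)) t := by
      have := ((hasDerivAt_id t).const_mul (2 * γ)).exp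
      simpa using this
    refine (h1.mul (hderφ t)).congr_deriv ?_
    ring
  have hanti : Antitone (fun s : ℝ => Real.exp (2 * γ * s) *
      ∑ z, π z * ((exp (s • Q)) *ᵥ f) z ^ 2) := by
    apply antitone_of_deriv_nonpos
    · intro s; exact (hder2 s).differentiableAt
    · intro s
      rw [(hder2 s).deriv]
      have h1 := hgap ((exp (s • Q)) *ᵥ f) (hinv s) (hmean s)
      have h2 : (2 * γ * ∑ z, π z * ((exp (s • Q)) *ᵥ f) z ^ 2 +
        2 * ∑ z, π z * (((exp (s • Q)) *ᵥ f) z * (Q *ᵥ ((exp (s • Q)) *ᵥ f)) z)) ≤ 0 := by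
        linarith
      exact mul_nonpos_of_nonneg_of_nonpos (Real.exp_pos _).le h2
  have h1 := hanti ht
  simp only [mul_zero, Real.exp_zero, one_mul, zero_smul, NormedSpace.exp_zero,
    Matrix.one_mulVec] at h1
  have h2 : Real.exp (-(2 * γ * t)) * (Real.exp (2 * γ * t) *
      ∑ z, π z * ((exp (t • Q)) *ᵥ f) z ^ 2) = ∑ z, π z * ((exp (t • Q)) *ᵥ f) z ^ 2 := by
    rw [← mul_assoc, ← Real.exp_add]; simp
  rw [← h2]
  exact mul_le_mul_of_nonneg_left h1 (Real.exp_pos _).le

/-- The abstract mixing bound. -/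
theorem abstract_bound (hπ : ∀ z, 0 < π z) (hπ1 : ∑ z, π z = 1)
    (hrev : ∀ z w, π z * Q z w = π w * Q w z) (hQ : ∀ z, ∑ w, Q z w = 0)
    (hQg : ∀ g : H, ∀ z w, Q ((g : Equiv.Perm S) z) ((g : Equiv.Perm S) w) = Q z w)
    (hπg : ∀ g : H, ∀ z, π ((g : Equiv.Perm S) z) = π z)
    (γ : ℝ)
    (hgap : ∀ f : S → ℝ, (∀ g : H, ∀ z, f ((g : Equiv.Perm S) z) = f z) → ∑ z, π z * f z = 0 →
      ∑ z, π z * (f z * (Q *ᵥ f) z) ≤ - (γ * ∑ z, π z * f z ^ 2))
    (s1 s2 t M ε : ℝ) (hs2 : 0 ≤ s2)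
    (hnonneg : ∀ z w, 0 ≤ exp ((s1 + s2) • Q) z w)
    (hM0 : 0 ≤ M) (hnonneg1 : ∀ z w, 0 ≤ exp (s1 • Q) z w)
    (hM : ∀ z w, exp (s1 • Q) z w ≤ M * π w)
    (hε : (exp ((t + t) • Q)).trace ≤ 1 + ε) (z w : S) :
    |cden Q π ((s1 + s2 + t) + (s1 + s2 + t)) z w|
      ≤ ε * (1 + M * Real.exp (-(2 * γ * s2))) := by
  apply cden_abs_le hπ hπ1 hQ hrev
  intro z0
  -- the density at time `s1 + s2`
  set u : S → ℝ := fun w => exp ((s1 + s2) • Q) z0 w / π w with hu
  set u1 : S → ℝ := fun w => exp (s1 • Q) z0 w / π w with hu1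
  have hun : ∀ w, 0 ≤ u w := fun w => div_nonneg (hnonneg _ _) (hπ w).le
  have hu1n : ∀ w, 0 ≤ u1 w := fun w => div_nonneg (hnonneg1 _ _) (hπ w).le
  have hu1M : ∀ w, u1 w ≤ M := fun w => by
    rw [hu1]; exact (div_le_iff₀ (hπ w)).mpr (hM z0 w)
  -- `u = P_{s2} u1`
  have huP : ∀ w, u w = ((exp (s2 • Q)) *ᵥ u1) w := by
    intro w
    simp only [hu, hu1, Matrix.mulVec, dotProduct]
    rw [exp_smul_add, Matrix.mul_apply, Finset.sum_div]
    apply Finset.sum_congr rfl
    intro v _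
    have h1 := exp_rev Q π hrev s2 v w
    have h2 : exp (s2 • Q) v w = π w * exp (s2 • Q) w v / π v := by
      rw [eq_div_iff (hπ v).ne']; linarith
    rw [h2]
    field_simp [(hπ v).ne', (hπ w).ne']
  have havgP : ∀ w, avg H u w = ((exp (s2 • Q)) *ᵥ (avg H u1)) w := by
    intro w
    unfold avg
    simp only [Matrix.mulVec, dotProduct]
    have h1 : ∀ g : H, u ((g : Equiv.Perm S) w)
        = ∑ v, exp (s2 • Q) w v * u1 ((g : Equiv.Perm S) v) := by
      intro g
      rw [huP]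
      simp only [Matrix.mulVec, dotProduct]
      rw [← Equiv.sum_comp (g : Equiv.Perm S)]
      apply Finset.sum_congr rfl
      intro v _
      rw [exp_perm H hQg]
    simp_rw [h1]
    rw [Finset.sum_comm, Finset.sum_div]
    apply Finset.sum_congr rfl
    intro v _
    rw [← Finset.mul_sum]; ring
  -- decay of the averaged density
  have hsum1 : ∑ w, π w * avg H u1 w = 1 := by
    rw [sum_avg H hπg]
    have h1 : ∀ w, π w * u1 w = exp (s1 • Q) z0 w := by
      intro w; simp only [hu1]; field_simp [(hπ w).ne']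
    simp_rw [h1]
    exact exp_row_sum Q hQ _ _
  set f : S → ℝ := fun w => avg H u1 w - 1 with hf
  have hfinv : ∀ g : H, ∀ z, f ((g : Equiv.Perm S) z) = f z := by
    intro g z; simp only [hf]; rw [avg_inv]
  have hf0 : ∑ z, π z * f z = 0 := by
    simp only [hf, mul_sub, mul_one]
    rw [Finset.sum_sub_distrib, hsum1, hπ1, sub_self]
  have hfsq : ∑ z, π z * f z ^ 2 ≤ M := by
    have h1 : ∀ z, π z * f z ^ 2 = π z * avg H u1 z ^ 2 - 2 * (π z * avg H u1 z) + π z := by
      intro z; simp only [hf]; ring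
    simp_rw [h1]
    rw [Finset.sum_add_distrib, Finset.sum_sub_distrib, ← Finset.mul_sum, hsum1, hπ1]
    have h2 : ∑ z, π z * avg H u1 z ^ 2 ≤ M := by
      calc ∑ z, π z * avg H u1 z ^ 2 ≤ ∑ z, M * (π z * avg H u1 z) := by
            apply Finset.sum_le_sum
            intro z _
            have h3 := avg_le H u1 M hu1M z
            have h4 := avg_nonneg H u1 hu1n z
            have h5 : avg H u1 z * avg H u1 z ≤ M * avg H u1 z := mul_le_mul_of_nonneg_right h3 h4
            have h6 := mul_le_mul_of_nonneg_left h5 (hπ z).le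
            calc π z * avg H u1 z ^ 2 = π z * (avg H u1 z * avg H u1 z) := by ring
              _ ≤ π z * (M * avg H u1 z) := h6
              _ = M * (π z * avg H u1 z) := by ring
        _ = M := by rw [← Finset.mul_sum, hsum1, mul_one]
    linarith
  have hdec := decay H hrev hQ hQg γ hgap f hfinv hf0 s2 hs2
  have hPf : ∀ w, ((exp (s2 • Q)) *ᵥ f) w = avg H u w - 1 := by
    intro w
    rw [havgP]
    simp only [Matrix.mulVec, dotProduct, hf, mul_sub, mul_one]
    rw [Finset.sum_sub_distrib, exp_row_sum Q hQ]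
  have hsumu : ∑ w, π w * avg H u w = 1 := by
    rw [sum_avg H hπg]
    have h1 : ∀ w, π w * u w = exp ((s1 + s2) • Q) z0 w := by
      intro w; simp only [hu]; field_simp [(hπ w).ne']
    simp_rw [h1]
    exact exp_row_sum Q hQ _ _
  have hB : ∑ w, π w * avg H u w ^ 2 ≤ 1 + M * Real.exp (-(2 * γ * s2)) := by
    have h1 : ∀ w, π w * ((exp (s2 • Q)) *ᵥ f) w ^ 2
        = π w * avg H u w ^ 2 - 2 * (π w * avg H u w) + π w := by
      intro w; rw [hPf]; ring
    simp_rw [h1] at hdec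
    rw [Finset.sum_add_distrib, Finset.sum_sub_distrib, ← Finset.mul_sum, hsumu, hπ1] at hdec
    have h2 : Real.exp (-(2 * γ * s2)) * ∑ z, π z * f z ^ 2 ≤ M * Real.exp (-(2 * γ * s2)) := by
      rw [mul_comm M]
      exact mul_le_mul_of_nonneg_left hfsq (Real.exp_pos _).le
    linarith
  -- the centered density at time `s1 + s2 + t`
  have hcd : ∀ g : H, ∀ v, cden Q π (s1 + s2 + t) z0 ((g : Equiv.Perm S) v)
      = ∑ w, π w * (cden Q π t v w * u ((g : Equiv.Perm S) w)) := by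
    intro g v
    rw [cden_add hπ hπ1 hQ hrev]
    have h1 : ∀ w, cden Q π (s1 + s2) z0 w = u w - 1 := fun w => rfl
    simp_rw [h1]
    rw [← Equiv.sum_comp (g : Equiv.Perm S)]
    simp_rw [cden_perm H hQg hπg, hπg]
    have h2 := cden_sum_zero (Q := Q) hπ hπ1 hQ t v
    have h3 : ∀ w, π w * ((u ((g : Equiv.Perm S) w) - 1) * cden Q π t v w)
        = π w * (cden Q π t v w * u ((g : Equiv.Perm S) w)) - π w * cden Q π t v w := by
      intro w; ring
    simp_rw [h3]
    rw [Finset.sum_sub_distrib, h2, sub_zero]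
  have hD : ∀ g : H, ∑ v, π v * cden Q π (s1 + s2 + t) z0 v ^ 2
      = ∑ v, π v * (∑ w, π w * (cden Q π t v w * u ((g : Equiv.Perm S) w))) ^ 2 := by
    intro g
    rw [← sum_perm H hπg (fun v => cden Q π (s1 + s2 + t) z0 v ^ 2) g]
    apply Finset.sum_congr rfl
    intro v _
    rw [hcd]
  have hD2 : ∑ v, π v * cden Q π (s1 + s2 + t) z0 v ^ 2
      = ∑ v, π v * ((∑ g : H, (∑ w, π w * (cden Q π t v w * u ((g : Equiv.Perm S) w))) ^ 2)
          / Fintype.card H) := by
    have h1 : ∑ v, π v * cden Q π (s1 + s2 + t) z0 v ^ 2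
        = (∑ _g : H, ∑ v, π v * cden Q π (s1 + s2 + t) z0 v ^ 2) / Fintype.card H := by
      rw [Finset.sum_const, Finset.card_univ, nsmul_eq_mul]
      field_simp [(card_pos' H).ne']
    rw [h1, Finset.sum_congr rfl (fun g _ => hD g), Finset.sum_comm, Finset.sum_div]
    apply Finset.sum_congr rfl
    intro v _
    rw [← Finset.mul_sum]; ring
  have htr := sum_cden_sq hπ hπ1 hQ hrev t
  have hBn : 0 ≤ ∑ w, π w * avg H u w ^ 2 :=
    Finset.sum_nonneg (fun w _ => mul_nonneg (hπ w).le (sq_nonneg _))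
  have hHSn : 0 ≤ (exp ((t + t) • Q)).trace - 1 := by
    rw [← htr]
    exact Finset.sum_nonneg (fun z _ => mul_nonneg (hπ z).le
      (Finset.sum_nonneg (fun w _ => mul_nonneg (hπ w).le (sq_nonneg _))))
  rw [hD2]
  calc ∑ v, π v * ((∑ g : H, (∑ w, π w * (cden Q π t v w * u ((g : Equiv.Perm S) w))) ^ 2)
          / Fintype.card H)
      ≤ ∑ v, π v * ((∑ w, π w * cden Q π t v w ^ 2) * ∑ w, π w * avg H u w ^ 2) := by
        apply Finset.sum_le_sum
        intro v _
        exact mul_le_mul_of_nonneg_left (avg_sq_le H hπ hπg u hun _) (hπ v).le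
    _ = ((exp ((t + t) • Q)).trace - 1) * ∑ w, π w * avg H u w ^ 2 := by
        rw [← htr, Finset.sum_mul]
        apply Finset.sum_congr rfl
        intro v _; ring
    _ ≤ ((exp ((t + t) • Q)).trace - 1) * (1 + M * Real.exp (-(2 * γ * s2))) :=
        mul_le_mul_of_nonneg_left hB hHSn
    _ ≤ ε * (1 + M * Real.exp (-(2 * γ * s2))) := by
        apply mul_le_mul_of_nonneg_right (by linarith)
        have := Real.exp_pos (-(2 * γ * s2))
        positivity

end Averaging

end Pool.Agent.W_MP_6c8c83_pr
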