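import Pool.Agent.W_MP_6c8c83_pr.Form

/-!
Trace comparison, invariance under automorphisms, Poincare inequality for invariant functions,
marginal bound.
-/

set_option linter.unusedSectionVars false

namespace Pool.Agent.W_MP_6c8c83_pr

open scoped BigOperators Matrix
open NormedSpace (exp)

variable {V : Type*} [Fintype V] [DecidableEq V] (G : SimpleGraph V) [DecidableRel G.Adj]

lemma srwRate_symm (d : ℕ) (x y : V) : srwRate G d x y = srwRate G d y x := by
  unfold srwRate
  by_cases h : G.Adj x y
  · rw [if_pos h, if_pos h.symm]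
  · rw [if_neg h, if_neg (fun h' => h h'.symm)]

lemma srwGen_symm (d : ℕ) (x y : V) :
    generator (srwRate G d) x y = generator (srwRate G d) y x := by
  have h := generator_rev (srwRate G d) (fun _ => 1) (by
    intro z w; rw [srwRate_symm]) x y
  simpa using h

lemma envGen_rev {E : Type*} [Fintype E] [DecidableEq E] (μ p : ℝ) (η ζ : E → Bool) :
    envW p η * envGen μ p η ζ = envW p ζ * envGen μ p ζ η := by
  unfold envGen
  simp only [Matrix.of_apply]
  rw [Finset.mul_sum, Finset.mul_sum]
  apply Finset.sum_congr rfl; intro e _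
  have h := env_flip_symm p η ζ e 1
  simp only [one_mul] at h
  have h2 : envW p η * (if ζ = η then (1 : ℝ) else 0) = envW p ζ * (if η = ζ then (1 : ℝ) else 0) := by
    by_cases h3 : ζ = η
    · subst h3; rfl
    · rw [if_neg h3, if_neg (Ne.symm h3)]; ring
  linear_combination μ * h - μ * h2

lemma prodGen_rev (d : ℕ) (μ p c θ : ℝ) (z w : V × (G.edgeSet → Bool)) :
    dynLaw G p z * prodGen G d μ p c θ z w = dynLaw G p w * prodGen G d μ p c θ w z := by
  obtain ⟨x, η⟩ := z
  obtain ⟨y, ζ⟩ := w
  rw [dynLaw_eq, dynLaw_eq]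
  unfold prodGen
  simp only [Matrix.of_apply]
  have h1 := srwGen_symm G d x y
  have h2 := envGen_rev μ p η ζ
  by_cases hη : η = ζ
  · subst hη
    by_cases hx : x = y
    · subst hx; rfl
    · rw [if_neg hx, if_neg (Ne.symm hx), h1]
  · rw [if_neg hη, if_neg (Ne.symm hη)]
    by_cases hx : x = y
    · subst hx
      simp only [if_true]
      linear_combination (1 / (Fintype.card V : ℝ)) * θ * h2
    · rw [if_neg hx, if_neg (Ne.symm hx)]; ring

/-- Kernel of the product chain. -/
lemma prod_exp (d : ℕ) (μ p c θ t : ℝ) :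
    exp (t • prodGen G d μ p c θ)
      = Matrix.of fun z w : V × (G.edgeSet → Bool) =>
        exp ((t * c) • generator (srwRate G d)) z.1 w.1
          * exp ((t * θ) • (envGen μ p : Matrix (G.edgeSet → Bool) (G.edgeSet → Bool) ℝ)) z.2 w.2 := by
  symm
  apply eq_exp_of_hasDerivAt (prodGen G d μ p c θ) (fun t => Matrix.of
    fun z w : V × (G.edgeSet → Bool) =>
        exp ((t * c) • generator (srwRate G d)) z.1 w.1
          * exp ((t * θ) • (envGen μ p : Matrix (G.edgeSet → Bool) (G.edgeSet → Bool) ℝ)) z.2 w.2)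
  · rintro t ⟨x, η⟩ ⟨y, ζ⟩
    simp only [Matrix.of_apply]
    have h1 : HasDerivAt (fun s : ℝ => exp ((s * c) • generator (srwRate G d)) x y)
        (c * (generator (srwRate G d) * exp ((t * c) • generator (srwRate G d))) x y) t := by
      have h := hasDerivAt_exp_smul (c • generator (srwRate G d)) t x y
      simpa only [smul_smul, Matrix.smul_mul, Matrix.smul_apply, smul_eq_mul] using h
    have h2 : HasDerivAt (fun s : ℝ => exp ((s * θ) •
          (envGen μ p : Matrix (G.edgeSet → Bool) (G.edgeSet → Bool) ℝ)) η ζ)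
        (θ * ((envGen μ p : Matrix (G.edgeSet → Bool) (G.edgeSet → Bool) ℝ) *
          exp ((t * θ) • (envGen μ p : Matrix (G.edgeSet → Bool) (G.edgeSet → Bool) ℝ))) η ζ) t := by
      have h := hasDerivAt_exp_smul
        (θ • (envGen μ p : Matrix (G.edgeSet → Bool) (G.edgeSet → Bool) ℝ)) t η ζ
      simpa only [smul_smul, Matrix.smul_mul, Matrix.smul_apply, smul_eq_mul] using h
    refine (h1.mul h2).congr_deriv ?_
    have h3 : ∀ w : V × (G.edgeSet → Bool), prodGen G d μ p c θ (x, η) w *
        (exp ((t * c) • generator (srwRate G d)) w.1 y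
          * exp ((t * θ) • (envGen μ p : Matrix (G.edgeSet → Bool) (G.edgeSet → Bool) ℝ)) w.2 ζ)
        = (c * (if η = w.2 then generator (srwRate G d) x w.1 *
              exp ((t * c) • generator (srwRate G d)) w.1 y *
              exp ((t * θ) • (envGen μ p : Matrix (G.edgeSet → Bool) (G.edgeSet → Bool) ℝ)) w.2 ζ
              else 0))
          + (θ * (if x = w.1 then envGen μ p η w.2 *
              exp ((t * θ) • (envGen μ p : Matrix (G.edgeSet → Bool) (G.edgeSet → Bool) ℝ)) w.2 ζ *
              exp ((t * c) • generator (srwRate G d)) w.1 y else 0)) := by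
      intro w
      unfold prodGen
      simp only [Matrix.of_apply]
      split_ifs <;> ring
    have h4 : (prodGen G d μ p c θ * (Matrix.of fun z w : V × (G.edgeSet → Bool) =>
        exp ((t * c) • generator (srwRate G d)) z.1 w.1
          * exp ((t * θ) • (envGen μ p : Matrix (G.edgeSet → Bool) (G.edgeSet → Bool) ℝ)) z.2 w.2))
          (x, η) (y, ζ)
        = ∑ w : V × (G.edgeSet → Bool), prodGen G d μ p c θ (x, η) w *
        (exp ((t * c) • generator (srwRate G d)) w.1 y
          * exp ((t * θ) • (envGen μ p : Matrix (G.edgeSet → Bool) (G.edgeSet → Bool) ℝ)) w.2 ζ) := by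
      rw [Matrix.mul_apply]; rfl
    rw [h4, Finset.sum_congr rfl (fun w _ => h3 w), Finset.sum_add_distrib, ← Finset.mul_sum,
      ← Finset.mul_sum, Fintype.sum_prod_type, Fintype.sum_prod_type]
    simp only
    have h5 : ∀ x' : V, ∑ η' : G.edgeSet → Bool, (if η = η' then generator (srwRate G d) x x' *
              exp ((t * c) • generator (srwRate G d)) x' y *
              exp ((t * θ) • (envGen μ p : Matrix (G.edgeSet → Bool) (G.edgeSet → Bool) ℝ)) η' ζ
              else 0) = generator (srwRate G d) x x' *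
              exp ((t * c) • generator (srwRate G d)) x' y *
              exp ((t * θ) • (envGen μ p : Matrix (G.edgeSet → Bool) (G.edgeSet → Bool) ℝ)) η ζ := by
      intro x'
      rw [Finset.sum_ite_eq, if_pos (Finset.mem_univ _)]
    simp_rw [h5]
    rw [← Finset.sum_mul]
    have h6 : ∑ x' : V, ∑ η' : G.edgeSet → Bool, (if x = x' then envGen μ p η η' *
              exp ((t * θ) • (envGen μ p : Matrix (G.edgeSet → Bool) (G.edgeSet → Bool) ℝ)) η' ζ *
              exp ((t * c) • generator (srwRate G d)) x' y else 0)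
        = (∑ η' : G.edgeSet → Bool, envGen μ p η η' *
              exp ((t * θ) • (envGen μ p : Matrix (G.edgeSet → Bool) (G.edgeSet → Bool) ℝ)) η' ζ) *
              exp ((t * c) • generator (srwRate G d)) x y := by
      rw [Finset.sum_eq_single x]
      · simp only [if_true]; rw [Finset.sum_mul]
      · intro x' _ hx'
        apply Finset.sum_eq_zero; intro η' _
        rw [if_neg (Ne.symm hx')]
      · intro h; exact absurd (Finset.mem_univ _) h
    rw [h6, ← Matrix.mul_apply, ← Matrix.mul_apply]
    ring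
  · ext ⟨x, η⟩ ⟨y, ζ⟩
    simp only [Matrix.of_apply, zero_mul, zero_smul, NormedSpace.exp_zero, Matrix.one_apply,
      Prod.mk.injEq]
    by_cases hx : x = y
    · by_cases hη : η = ζ
      · simp [hx, hη]
      · simp [hη]
    · simp [hx]

lemma prod_trace (d : ℕ) (μ p c θ t : ℝ) :
    (exp (t • prodGen G d μ p c θ)).trace
      = (exp ((t * c) • generator (srwRate G d))).trace
        * (1 + Real.exp (-(μ * (t * θ)))) ^ Fintype.card G.edgeSet := by
  rw [prod_exp, ← trace_env μ p (t * θ)]
  unfold Matrix.trace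
  simp only [Matrix.diag_apply, Matrix.of_apply]
  rw [Fintype.sum_prod_type, Finset.sum_mul]
  apply Finset.sum_congr rfl; intro x _
  rw [Finset.mul_sum]

/-- **Trace comparison.** -/
lemma full_trace_le [Nonempty V] (d : ℕ) (hd : 1 ≤ d) {μ p : ℝ} (hμ0 : 0 < μ) (hμ1 : μ ≤ 1)
    (h0 : 0 < p) (h1 : p < 1) (t : ℝ) (ht : 0 ≤ t) :
    (exp (t • generator (dynRate G d μ p))).trace
      ≤ (exp ((t * (μ * p / 6)) • generator (srwRate G d))).trace
        * (1 + Real.exp (-(μ * (t * (1 / 2))))) ^ Fintype.card G.edgeSet := by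
  rw [← prod_trace G d μ p (μ * p / 6) (1 / 2) t]
  apply trace_exp_le_weighted (dynLaw G p) (dynLaw_pos G h0 h1)
  · intro z w
    simp only [Matrix.smul_apply, smul_eq_mul]
    have := generator_rev (dynRate G d μ p) (dynLaw G p) (dyn_rev G d μ p) z w
    linear_combination t * this
  · intro z w
    simp only [Matrix.smul_apply, smul_eq_mul]
    have := prodGen_rev G d μ p (μ * p / 6) (1 / 2) z w
    linear_combination t * this
  · intro f
    have hs : ∀ M : Matrix (V × (G.edgeSet → Bool)) (V × (G.edgeSet → Bool)) ℝ,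
        ∑ z, dynLaw G p z * (f z * ((t • M) *ᵥ f) z)
          = t * ∑ z, dynLaw G p z * (f z * (M *ᵥ f) z) := by
      intro M
      rw [Finset.mul_sum]
      apply Finset.sum_congr rfl; intro z _
      rw [Matrix.smul_mulVec]
      simp only [Pi.smul_apply, smul_eq_mul]; ring
    rw [hs, hs]
    apply mul_le_mul_of_nonneg_left _ ht
    rw [full_form, prod_form]
    apply neg_le_neg
    apply mul_le_mul_of_nonneg_left _ (by positivity)
    have hc := form_compare G h0 h1 f
    have hW := formW_nonneg G h0 h1 f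
    have hV := formV_nonneg G h0 h1 f
    have hd' : (1 : ℝ) ≤ d := by exact_mod_cast hd
    have hd0 : (0 : ℝ) < d := by linarith
    -- (μ p/6) (1/(2d)) W0 ≤ (1/2) μ (1/(2d)) (W + 2 V) ≤ (1/2) ((1/(2d)) W + μ V)
    have e1 : μ * p / 6 * (1 / (2 * (d : ℝ)) * formW0 G p f)
        ≤ μ * p / 6 * (1 / (2 * (d : ℝ)) * ((3 / p) * (formW G p f + 2 * formV G p f))) := by
      apply mul_le_mul_of_nonneg_left _ (by positivity)
      exact mul_le_mul_of_nonneg_left hc (by positivity)
    have e2 : μ * p / 6 * (1 / (2 * (d : ℝ)) * ((3 / p) * (formW G p f + 2 * formV G p f)))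
        = (1 / 2) * (μ * (1 / (2 * (d : ℝ))) * formW G p f) + (1 / 2) * (μ * (1 / (d : ℝ)) * formV G p f) := by
      field_simp
      ring
    have e3 : μ * (1 / (2 * (d : ℝ))) * formW G p f ≤ 1 / (2 * (d : ℝ)) * formW G p f := by
      apply mul_le_mul_of_nonneg_right _ hW
      calc μ * (1 / (2 * (d : ℝ))) ≤ 1 * (1 / (2 * (d : ℝ))) :=
            mul_le_mul_of_nonneg_right hμ1 (by positivity)
        _ = _ := one_mul _
    have e4 : μ * (1 / (d : ℝ)) * formV G p f ≤ μ * formV G p f := by
      apply mul_le_mul_of_nonneg_right _ hV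
      have : 1 / (d : ℝ) ≤ 1 := by
        rw [div_le_one hd0]; exact hd'
      calc μ * (1 / (d : ℝ)) ≤ μ * 1 := mul_le_mul_of_nonneg_left this hμ0.le
        _ = μ := mul_one _
    have e5 : 0 ≤ 1 / (2 * (d : ℝ)) * formW G p f := by positivity
    linarith

end Pool.Agent.W_MP_6c8c83_pr
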