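import Mathlib

/-!
# Random walk on dynamical percolation: definitions

Finite-state continuous-time Markov chains are given by a matrix `R` of jump rates
(`R z w` is the rate of the transition `z → w`; the diagonal of `R` is irrelevant).
The transition kernel is `P_t = exp (t Q)` where `Q` is the generator matrix.
-/

namespace Pool.Agent.W_MP_6c8c83_pr

/-- Generator (`Q`-matrix) of the chain with jump rates `R`: its off-diagonal entries are those of
`R` and its rows sum to zero (the diagonal entries of `R` cancel). -/
noncomputable def generator {S : Type*} [Fintype S] [DecidableEq S] (R : Matrix S S ℝ) :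
    Matrix S S ℝ :=
  R - Matrix.diagonal (fun z => ∑ w, R z w)

/-- Transition kernel `P_t = exp (t Q)` of the chain with jump rates `R`. -/
noncomputable def kernel {S : Type*} [Fintype S] [DecidableEq S] (R : Matrix S S ℝ) (t : ℝ) :
    Matrix S S ℝ :=
  NormedSpace.exp (t • generator R)

/-- The `L^∞` mixing time
`inf {t ≥ 0 : max_{z,w} |P_t(z,w)/π(w) - 1| ≤ 1/4}` of the chain with jump rates `R` and
stationary law `π`. -/
noncomputable def mixingTimeInf {S : Type*} [Fintype S] [DecidableEq S] (R : Matrix S S ℝ)
    (π : S → ℝ) : ℝ :=
  sInf {t : ℝ | 0 ≤ t ∧ ∀ z w, |kernel R t z w / π w - 1| ≤ 1 / 4}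

/-- A graph is vertex-transitive if its automorphism group acts transitively on its vertices. -/
def VertexTransitive {V : Type*} (G : SimpleGraph V) : Prop :=
  ∀ x y : V, ∃ φ : G ≃g G, φ x = y

/-- Jump rates of the rate-`1` continuous-time simple random walk on a `d`-regular graph: the walk
jumps to each neighbour at rate `1/d`. -/
noncomputable def srwRate {V : Type*} (G : SimpleGraph V) [DecidableRel G.Adj] (d : ℕ) :
    Matrix V V ℝ :=
  fun x y => if G.Adj x y then 1 / (d : ℝ) else 0

/-- The uniform law on `V`. -/
noncomputable def uniformLaw (V : Type*) [Fintype V] : V → ℝ :=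
  fun _ => 1 / (Fintype.card V : ℝ)

open Classical in
/-- Jump rates of the full process of random walk on dynamical percolation with parameters
`(μ, p)` on a `d`-regular graph `G`. A state `(x, η)` consists of the position `x` of the walker
and of the set `η : G.edgeSet → Bool` of open edges (`true` = open).
* the walker jumps from `x` to `y` at rate `1/d` if there is an open edge with endpoints `x, y`;
* each edge `e` rings at rate `μ`, and its state is then replaced by `true` with probability `p`
  and by `false` with probability `1 - p`. -/
noncomputable def dynRate {V : Type*} [Fintype V] [DecidableEq V] (G : SimpleGraph V)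
    [DecidableRel G.Adj] (d : ℕ) (μ p : ℝ) :
    Matrix (V × (G.edgeSet → Bool)) (V × (G.edgeSet → Bool)) ℝ :=
  fun z w =>
    (if (∃ e : G.edgeSet, (e : Sym2 V) = s(z.1, w.1) ∧ z.2 e = true) ∧ w.2 = z.2
      then 1 / (d : ℝ) else 0)
    + ∑ e : G.edgeSet, ∑ b : Bool,
        (if w.1 = z.1 ∧ w.2 = Function.update z.2 e b
          then μ * (if b = true then p else 1 - p) else 0)

/-- The stationary law `Unif(V) ⊗ Bernoulli(p)^{⊗ E}` of the full process. -/
noncomputable def dynLaw {V : Type*} [Fintype V] [DecidableEq V] (G : SimpleGraph V)
    [DecidableRel G.Adj] (p : ℝ) : V × (G.edgeSet → Bool) → ℝ :=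
  fun z => 1 / (Fintype.card V : ℝ) * ∏ e : G.edgeSet, (if z.2 e = true then p else 1 - p)

end Pool.Agent.W_MP_6c8c83_pr
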