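import Pool.Agent.W_MP_6c8c83_pr.Full

/-!
Dirichlet forms of the full process and of the comparison product chain.
-/

set_option linter.unusedSectionVars false

namespace Pool.Agent.W_MP_6c8c83_pr

open scoped BigOperators Matrix
open NormedSpace (exp)

variable {V : Type*} [Fintype V] [DecidableEq V] (G : SimpleGraph V) [DecidableRel G.Adj]

/-- variance part in direction `e` -/
noncomputable def vr {E : Type*} [Fintype E] [DecidableEq E] (p : ℝ) (e : E)
    (g : (E → Bool) → ℝ) : ℝ := ip p g g - ip p (rs p e g) (rs p e g)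

lemma vr_nonneg {E : Type*} [Fintype E] [DecidableEq E] {p : ℝ} (h0 : 0 < p) (h1 : p < 1) (e : E)
    (g : (E → Bool) → ℝ) : 0 ≤ vr p e g := by
  unfold vr
  linarith [ip_rs_le h0 h1 e g]

noncomputable def formW (p : ℝ) (f : V × (G.edgeSet → Bool) → ℝ) : ℝ :=
  ∑ x, ∑ y, ∑ e, inc G x y e * ∑ η, envW p η * (op G η e * (f (x, η) - f (y, η)) ^ 2)

noncomputable def formW0 (p : ℝ) (f : V × (G.edgeSet → Bool) → ℝ) : ℝ :=
  ∑ x, ∑ y, ∑ e, inc G x y e * ∑ η, envW p η * (f (x, η) - f (y, η)) ^ 2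

noncomputable def formV (p : ℝ) (f : V × (G.edgeSet → Bool) → ℝ) : ℝ :=
  ∑ x, ∑ e, vr p e (fun η => f (x, η))

/-- symmetrization -/
lemma symm_form (k : V → V → ℝ) (hk : ∀ x y, k x y = k y x) (g : V → ℝ) :
    ∑ x, ∑ y, k x y * (g x * (g y - g x)) = -(1 / 2) * ∑ x, ∑ y, k x y * (g x - g y) ^ 2 := by
  have h1 : ∑ x, ∑ y, k x y * (g x * (g y - g x)) = ∑ x, ∑ y, k x y * (g y * (g x - g y)) := by
    rw [Finset.sum_comm]
    apply Finset.sum_congr rfl; intro x _
    apply Finset.sum_congr rfl; intro y _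
    rw [hk]
  have h2 : ∑ x, ∑ y, k x y * (g x - g y) ^ 2
      = -(∑ x, ∑ y, k x y * (g x * (g y - g x)) + ∑ x, ∑ y, k x y * (g y * (g x - g y))) := by
    rw [← Finset.sum_add_distrib, ← Finset.sum_neg_distrib]
    apply Finset.sum_congr rfl; intro x _
    rw [← Finset.sum_add_distrib, ← Finset.sum_neg_distrib]
    apply Finset.sum_congr rfl; intro y _
    ring
  rw [h2, ← h1]; ring

lemma walk_form (p : ℝ) (a : (G.edgeSet → Bool) → G.edgeSet → ℝ)
    (f : V × (G.edgeSet → Bool) → ℝ) :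
    ∑ x, ∑ η, envW p η * (f (x, η) * ∑ y, ∑ e, inc G x y e * a η e * (f (y, η) - f (x, η)))
      = -(1 / 2) * ∑ x, ∑ y, ∑ e, inc G x y e *
          ∑ η, envW p η * (a η e * (f (x, η) - f (y, η)) ^ 2) := by
  have h1 : ∀ η : G.edgeSet → Bool,
      ∑ x, ∑ y, (∑ e, inc G x y e * a η e) * (f (x, η) * (f (y, η) - f (x, η)))
      = -(1 / 2) * ∑ x, ∑ y, (∑ e, inc G x y e * a η e) * (f (x, η) - f (y, η)) ^ 2 := by
    intro η
    apply symm_form (fun x y => ∑ e, inc G x y e * a η e) _ (fun x => f (x, η))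
    intro x y
    apply Finset.sum_congr rfl; intro e _
    rw [inc_symm]
  have h2 : ∑ x, ∑ η, envW p η * (f (x, η) * ∑ y, ∑ e, inc G x y e * a η e * (f (y, η) - f (x, η)))
      = ∑ η, envW p η * ∑ x, ∑ y, (∑ e, inc G x y e * a η e) *
          (f (x, η) * (f (y, η) - f (x, η))) := by
    rw [Finset.sum_comm]
    apply Finset.sum_congr rfl; intro η _
    rw [← Finset.mul_sum]
    congr 1
    apply Finset.sum_congr rfl; intro x _
    rw [Finset.mul_sum]
    apply Finset.sum_congr rfl; intro y _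
    rw [Finset.mul_sum, Finset.sum_mul]
    apply Finset.sum_congr rfl; intro e _
    ring
  have h3 : ∑ x, ∑ y, ∑ e, inc G x y e * ∑ η, envW p η * (a η e * (f (x, η) - f (y, η)) ^ 2)
      = ∑ η, envW p η * ∑ x, ∑ y, (∑ e, inc G x y e * a η e) * (f (x, η) - f (y, η)) ^ 2 := by
    have h4 : ∀ x y, ∑ e, inc G x y e * ∑ η, envW p η * (a η e * (f (x, η) - f (y, η)) ^ 2)
        = ∑ η, envW p η * ((∑ e, inc G x y e * a η e) * (f (x, η) - f (y, η)) ^ 2) := by
      intro x y
      simp_rw [Finset.mul_sum, Finset.sum_mul]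
      rw [Finset.sum_comm]
      apply Finset.sum_congr rfl; intro η _
      rw [Finset.mul_sum]
      apply Finset.sum_congr rfl; intro e _
      ring
    simp_rw [h4]
    simp_rw [Finset.mul_sum]
    have h5 : ∀ x : V, ∑ y, ∑ η, envW p η * ((∑ e, inc G x y e * a η e) * (f (x, η) - f (y, η)) ^ 2)
        = ∑ η, ∑ y, envW p η * ((∑ e, inc G x y e * a η e) * (f (x, η) - f (y, η)) ^ 2) :=
      fun x => Finset.sum_comm
    simp_rw [h5]
    exact Finset.sum_comm
  rw [h2, h3]
  simp_rw [h1]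
  rw [Finset.mul_sum]
  apply Finset.sum_congr rfl; intro η _
  ring

lemma env_form (μ p : ℝ) (f : V × (G.edgeSet → Bool) → ℝ) :
    ∑ x, ∑ η, envW p η * (f (x, η) * ∑ e : G.edgeSet, μ * (rs p e (fun ζ => f (x, ζ)) η - f (x, η)))
      = -(μ * formV G p f) := by
  unfold formV
  rw [Finset.mul_sum, ← Finset.sum_neg_distrib]
  apply Finset.sum_congr rfl; intro x _
  have h1 : ∀ η : G.edgeSet → Bool, envW p η * (f (x, η) *
      ∑ e : G.edgeSet, μ * (rs p e (fun ζ => f (x, ζ)) η - f (x, η)))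
      = ∑ e : G.edgeSet, μ * (envW p η * (f (x, η) * rs p e (fun ζ => f (x, ζ)) η)
        - envW p η * (f (x, η) * f (x, η))) := by
    intro η
    rw [Finset.mul_sum, Finset.mul_sum]
    apply Finset.sum_congr rfl; intro e _; ring
  simp_rw [h1]
  rw [Finset.sum_comm, Finset.mul_sum, ← Finset.sum_neg_distrib]
  apply Finset.sum_congr rfl; intro e _
  rw [← Finset.mul_sum, Finset.sum_sub_distrib]
  unfold vr
  have h2 : ∑ η, envW p η * (f (x, η) * rs p e (fun ζ => f (x, ζ)) η)
      = ip p (rs p e (fun ζ => f (x, ζ))) (rs p e (fun ζ => f (x, ζ))) := by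
    rw [← ip_rs]; rfl
  have h3 : ∑ η, envW p η * (f (x, η) * f (x, η))
      = ip p (fun ζ => f (x, ζ)) (fun ζ => f (x, ζ)) := rfl
  rw [h2, h3]; ring

/-- The Dirichlet form of the full process. -/
lemma full_form (d : ℕ) (μ p : ℝ) (f : V × (G.edgeSet → Bool) → ℝ) :
    ∑ z, dynLaw G p z * (f z * (generator (dynRate G d μ p) *ᵥ f) z)
      = -((1 / (Fintype.card V : ℝ)) *
          ((1 / (2 * (d : ℝ))) * formW G p f + μ * formV G p f)) := by
  rw [dynLaw_sum_mul G p (fun z => f z * (generator (dynRate G d μ p) *ᵥ f) z)]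
  have h1 : ∀ x η, (generator (dynRate G d μ p) *ᵥ f) (x, η)
      = (1 / (d : ℝ)) * (∑ y, ∑ e, inc G x y e * op G η e * (f (y, η) - f (x, η)))
        + ∑ e : G.edgeSet, μ * (rs p e (fun ζ => f (x, ζ)) η - f (x, η)) := by
    intro x η
    exact dyn_action G d μ p f x η
  simp_rw [h1, mul_add, Finset.sum_add_distrib]
  rw [env_form]
  have h2 : ∑ x, ∑ η, envW p η * (f (x, η) * ((1 / (d : ℝ)) *
      ∑ y, ∑ e, inc G x y e * op G η e * (f (y, η) - f (x, η))))
      = (1 / (d : ℝ)) * ∑ x, ∑ η, envW p η * (f (x, η) *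
      ∑ y, ∑ e, inc G x y e * op G η e * (f (y, η) - f (x, η))) := by
    rw [Finset.mul_sum]
    apply Finset.sum_congr rfl; intro x _
    rw [Finset.mul_sum]
    apply Finset.sum_congr rfl; intro η _
    ring
  rw [h2, walk_form G p (fun η e => op G η e) f]
  unfold formW
  rw [one_div (2 * (d : ℝ)), mul_inv]
  ring

/-- Generator of the comparison product chain. -/
noncomputable def prodGen (d : ℕ) (μ p c θ : ℝ) :
    Matrix (V × (G.edgeSet → Bool)) (V × (G.edgeSet → Bool)) ℝ :=
  Matrix.of fun z w => c * (generator (srwRate G d) z.1 w.1 * (if z.2 = w.2 then 1 else 0))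
    + θ * ((if z.1 = w.1 then 1 else 0) * envGen μ p z.2 w.2)

lemma prod_action (d : ℕ) (μ p c θ : ℝ) (f : V × (G.edgeSet → Bool) → ℝ) (x : V)
    (η : G.edgeSet → Bool) :
    ∑ w, prodGen G d μ p c θ (x, η) w * f w
      = c * ((1 / (d : ℝ)) * ∑ y, ∑ e, inc G x y e * (f (y, η) - f (x, η)))
        + θ * ∑ e : G.edgeSet, μ * (rs p e (fun ζ => f (x, ζ)) η - f (x, η)) := by
  rw [Fintype.sum_prod_type]
  unfold prodGen
  simp only [Matrix.of_apply, add_mul, Finset.sum_add_distrib]
  congr 1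
  · rw [← srw_action G d (fun y => f (y, η)) x, Finset.mul_sum]
    apply Finset.sum_congr rfl; intro y _
    rw [Finset.sum_eq_single η]
    · simp; ring
    · intro ζ _ hζ; rw [if_neg (Ne.symm hζ)]; ring
    · intro h; exact absurd (Finset.mem_univ _) h
  · rw [Finset.sum_eq_single x]
    · rw [← envGen_sum μ p (fun ζ => f (x, ζ)) η, Finset.mul_sum]
      apply Finset.sum_congr rfl; intro ζ _
      simp; ring
    · intro y _ hy
      apply Finset.sum_eq_zero; intro ζ _
      rw [if_neg (Ne.symm hy)]; ring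
    · intro h; exact absurd (Finset.mem_univ _) h

lemma prod_form (d : ℕ) (μ p c θ : ℝ) (f : V × (G.edgeSet → Bool) → ℝ) :
    ∑ z, dynLaw G p z * (f z * (prodGen G d μ p c θ *ᵥ f) z)
      = -((1 / (Fintype.card V : ℝ)) *
          (c * ((1 / (2 * (d : ℝ))) * formW0 G p f) + θ * (μ * formV G p f))) := by
  rw [dynLaw_sum_mul G p (fun z => f z * (prodGen G d μ p c θ *ᵥ f) z)]
  have h1 : ∀ x η, (prodGen G d μ p c θ *ᵥ f) (x, η)
      = c * ((1 / (d : ℝ)) * (∑ y, ∑ e, inc G x y e * 1 * (f (y, η) - f (x, η))))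
        + θ * ∑ e : G.edgeSet, μ * (rs p e (fun ζ => f (x, ζ)) η - f (x, η)) := by
    intro x η
    simp only [mul_one]
    exact prod_action G d μ p c θ f x η
  simp_rw [h1, mul_add, Finset.sum_add_distrib]
  have h2 : ∑ x, ∑ η, envW p η * (f (x, η) * (c * ((1 / (d : ℝ)) *
      ∑ y, ∑ e, inc G x y e * 1 * (f (y, η) - f (x, η)))))
      = c * ((1 / (d : ℝ)) * ∑ x, ∑ η, envW p η * (f (x, η) *
      ∑ y, ∑ e, inc G x y e * 1 * (f (y, η) - f (x, η)))) := by
    rw [Finset.mul_sum, Finset.mul_sum]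
    apply Finset.sum_congr rfl; intro x _
    rw [Finset.mul_sum, Finset.mul_sum]
    apply Finset.sum_congr rfl; intro η _
    ring
  have h3 : ∑ x, ∑ η, envW p η * (f (x, η) * (θ *
      ∑ e : G.edgeSet, μ * (rs p e (fun ζ => f (x, ζ)) η - f (x, η))))
      = θ * ∑ x, ∑ η, envW p η * (f (x, η) *
      ∑ e : G.edgeSet, μ * (rs p e (fun ζ => f (x, ζ)) η - f (x, η))) := by
    rw [Finset.mul_sum]
    apply Finset.sum_congr rfl; intro x _
    rw [Finset.mul_sum]
    apply Finset.sum_congr rfl; intro η _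
    ring
  rw [h2, h3, env_form, walk_form G p (fun _ _ => 1) f]
  unfold formW0
  simp only [one_mul]
  rw [one_div (2 * (d : ℝ)), mul_inv]
  ring

/-- The one-edge comparison. -/
lemma edge_compare {E : Type*} [Fintype E] [DecidableEq E] {p : ℝ} (h0 : 0 < p) (h1 : p < 1)
    (e : E) (a b : (E → Bool) → ℝ) :
    ∑ η, envW p η * (a η - b η) ^ 2
      ≤ (3 / p) * (∑ η, envW p η * ((if η e = true then 1 else 0) * (a η - b η) ^ 2)
          + vr p e a + vr p e b) := by
  have hvr : ∀ g : (E → Bool) → ℝ, vr p e g = ∑ η, envW p η * (g η - rs p e g η) ^ 2 := by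
    intro g
    unfold vr
    rw [← ip_proj]
    unfold ip
    apply Finset.sum_congr rfl; intro η _; ring
  rw [hvr, hvr, ← sum_rs p e (fun η => (a η - b η) ^ 2),
    ← sum_rs p e (fun η => (if η e = true then 1 else 0) * (a η - b η) ^ 2),
    ← sum_rs p e (fun η => (a η - rs p e a η) ^ 2), ← sum_rs p e (fun η => (b η - rs p e b η) ^ 2),
    ← Finset.sum_add_distrib, ← Finset.sum_add_distrib, Finset.mul_sum]
  apply Finset.sum_le_sum
  intro η _
  have hw : 0 < envW p η := envW_pos h0 h1 η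
  have key : rs p e (fun η => (a η - b η) ^ 2) η
      ≤ (3 / p) * (rs p e (fun η => (if η e = true then 1 else 0) * (a η - b η) ^ 2) η
        + rs p e (fun η => (a η - rs p e a η) ^ 2) η
        + rs p e (fun η => (b η - rs p e b η) ^ 2) η) := by
    have hrs : ∀ g : (E → Bool) → ℝ, ∀ ξ, rs p e g ξ
        = p * g (Function.update ξ e true) + (1 - p) * g (Function.update ξ e false) := by
      intro g ξ
      unfold rs
      rw [Fintype.sum_bool]
      simp [bern]
    simp only [hrs, Function.update_self, Function.update_idem, if_true]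
    simp only [Bool.false_eq_true, if_false, zero_mul, mul_zero, add_zero, one_mul]
    set a1 := a (Function.update η e true)
    set a0 := a (Function.update η e false)
    set b1 := b (Function.update η e true)
    set b0 := b (Function.update η e false)
    have hp : p ≠ 0 := h0.ne'
    have e1 : (3 / p) * (p * (a1 - b1) ^ 2
        + (p * (a1 - (p * a1 + (1 - p) * a0)) ^ 2 + (1 - p) * (a0 - (p * a1 + (1 - p) * a0)) ^ 2)
        + (p * (b1 - (p * b1 + (1 - p) * b0)) ^ 2 + (1 - p) * (b0 - (p * b1 + (1 - p) * b0)) ^ 2))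
        = 3 * (a1 - b1) ^ 2 + 3 * (1 - p) * (a1 - a0) ^ 2 + 3 * (1 - p) * (b1 - b0) ^ 2 := by
      field_simp
      ring
    rw [e1]
    have e2 : (a0 - b0) ^ 2 ≤ 3 * ((a1 - a0) ^ 2 + (a1 - b1) ^ 2 + (b1 - b0) ^ 2) := by
      nlinarith [sq_nonneg ((a0 - a1) - (a1 - b1)), sq_nonneg ((a1 - b1) - (b1 - b0)),
        sq_nonneg ((a0 - a1) - (b1 - b0))]
    have e3 := mul_le_mul_of_nonneg_left e2 (by linarith : (0 : ℝ) ≤ 1 - p)
    nlinarith [mul_nonneg h0.le (sq_nonneg (a1 - b1))]
  have := mul_le_mul_of_nonneg_left key hw.le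
  calc envW p η * rs p e (fun η => (a η - b η) ^ 2) η ≤ _ := this
    _ = _ := by ring

/-- The comparison of Dirichlet forms. -/
lemma form_compare {p : ℝ} (h0 : 0 < p) (h1 : p < 1) (f : V × (G.edgeSet → Bool) → ℝ) :
    formW0 G p f ≤ (3 / p) * (formW G p f + 2 * formV G p f) := by
  have hstep : formW0 G p f ≤ ∑ x, ∑ y, ∑ e, inc G x y e * ((3 / p) *
      (∑ η, envW p η * (op G η e * (f (x, η) - f (y, η)) ^ 2)
        + vr p e (fun η => f (x, η)) + vr p e (fun η => f (y, η)))) := by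
    unfold formW0
    apply Finset.sum_le_sum; intro x _
    apply Finset.sum_le_sum; intro y _
    apply Finset.sum_le_sum; intro e _
    exact mul_le_mul_of_nonneg_left (edge_compare h0 h1 e _ _) (inc_nonneg G x y e)
  have hA : ∑ x, ∑ y, ∑ e, inc G x y e * vr p e (fun η => f (x, η)) ≤ formV G p f := by
    unfold formV
    apply Finset.sum_le_sum; intro x _
    rw [Finset.sum_comm]
    apply Finset.sum_le_sum; intro e _
    rw [← Finset.sum_mul]
    calc (∑ y, inc G x y e) * vr p e (fun η => f (x, η)) ≤ 1 * vr p e (fun η => f (x, η)) :=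
          mul_le_mul_of_nonneg_right (sum_inc_le G x e) (vr_nonneg h0 h1 e _)
      _ = _ := one_mul _
  have hB : ∑ x, ∑ y, ∑ e, inc G x y e * vr p e (fun η => f (y, η)) ≤ formV G p f := by
    rw [Finset.sum_comm]
    calc ∑ y, ∑ x, ∑ e, inc G x y e * vr p e (fun η => f (y, η))
        = ∑ y, ∑ x, ∑ e, inc G y x e * vr p e (fun η => f (y, η)) := by
          apply Finset.sum_congr rfl; intro y _
          apply Finset.sum_congr rfl; intro x _
          apply Finset.sum_congr rfl; intro e _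
          rw [inc_symm]
      _ ≤ formV G p f := hA
  have hsplit : ∑ x, ∑ y, ∑ e, inc G x y e * ((3 / p) *
      (∑ η, envW p η * (op G η e * (f (x, η) - f (y, η)) ^ 2)
        + vr p e (fun η => f (x, η)) + vr p e (fun η => f (y, η))))
      = (3 / p) * (formW G p f + ∑ x, ∑ y, ∑ e, inc G x y e * vr p e (fun η => f (x, η))
        + ∑ x, ∑ y, ∑ e, inc G x y e * vr p e (fun η => f (y, η))) := by
    unfold formW
    rw [← Finset.sum_add_distrib, ← Finset.sum_add_distrib, Finset.mul_sum]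
    apply Finset.sum_congr rfl; intro x _
    rw [← Finset.sum_add_distrib, ← Finset.sum_add_distrib, Finset.mul_sum]
    apply Finset.sum_congr rfl; intro y _
    rw [← Finset.sum_add_distrib, ← Finset.sum_add_distrib, Finset.mul_sum]
    apply Finset.sum_congr rfl; intro e _
    ring
  rw [hsplit] at hstep
  refine hstep.trans ?_
  apply mul_le_mul_of_nonneg_left _ (by positivity)
  linarith

lemma formW_nonneg {p : ℝ} (h0 : 0 < p) (h1 : p < 1) (f : V × (G.edgeSet → Bool) → ℝ) :
    0 ≤ formW G p f := by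
  unfold formW
  apply Finset.sum_nonneg; intro x _
  apply Finset.sum_nonneg; intro y _
  apply Finset.sum_nonneg; intro e _
  apply mul_nonneg (inc_nonneg G x y e)
  apply Finset.sum_nonneg; intro η _
  apply mul_nonneg (envW_pos h0 h1 η).le
  apply mul_nonneg _ (sq_nonneg _)
  unfold op; split_ifs <;> norm_num

lemma formV_nonneg {p : ℝ} (h0 : 0 < p) (h1 : p < 1) (f : V × (G.edgeSet → Bool) → ℝ) :
    0 ≤ formV G p f := by
  unfold formV
  apply Finset.sum_nonneg; intro x _
  apply Finset.sum_nonneg; intro e _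
  exact vr_nonneg h0 h1 e _

end Pool.Agent.W_MP_6c8c83_pr
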