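import Pool.Agent.W_MP_6c8c83_pr.Gen

/-!
The full process of random walk on dynamical percolation: action of the generator, reversibility,
Dirichlet form comparison.
-/

set_option linter.unusedSectionVars false

namespace Pool.Agent.W_MP_6c8c83_pr

open scoped BigOperators Matrix
open NormedSpace (exp)

variable {V : Type*} [Fintype V] [DecidableEq V] (G : SimpleGraph V) [DecidableRel G.Adj]

/-- incidence weight -/
noncomputable def inc (x y : V) (e : G.edgeSet) : ℝ := if (e : Sym2 V) = s(x, y) then 1 else 0

lemma inc_nonneg (x y : V) (e : G.edgeSet) : 0 ≤ inc G x y e := by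
  unfold inc; split_ifs <;> norm_num

lemma inc_symm (x y : V) (e : G.edgeSet) : inc G x y e = inc G y x e := by
  unfold inc; rw [Sym2.eq_swap]

lemma sum_inc_le (x : V) (e : G.edgeSet) : ∑ y, inc G x y e ≤ 1 := by
  unfold inc
  by_cases h : ∃ y, (e : Sym2 V) = s(x, y)
  · obtain ⟨y0, hy0⟩ := h
    rw [Finset.sum_eq_single y0]
    · split_ifs <;> norm_num
    · intro y _ hy
      rw [if_neg]
      intro hy'
      rw [hy0] at hy'
      exact hy (Sym2.congr_right.mp hy').symm
    · intro h; exact absurd (Finset.mem_univ _) h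
  · push Not at h
    rw [Finset.sum_eq_zero]
    · norm_num
    · intro y _; rw [if_neg (h y)]

/-- Sum over edges of an incidence-weighted function. -/
lemma sum_inc (x y : V) (F : G.edgeSet → ℝ) (h : G.Adj x y) :
    ∑ e, inc G x y e * F e = F ⟨s(x, y), h⟩ := by
  rw [Finset.sum_eq_single ⟨s(x, y), h⟩]
  · unfold inc; simp
  · intro e _ he
    unfold inc
    rw [if_neg, zero_mul]
    intro he'
    exact he (Subtype.ext he')
  · intro h; exact absurd (Finset.mem_univ _) h

lemma sum_inc_zero (x y : V) (F : G.edgeSet → ℝ) (h : ¬ G.Adj x y) :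
    ∑ e, inc G x y e * F e = 0 := by
  apply Finset.sum_eq_zero
  intro e _
  unfold inc
  rw [if_neg, zero_mul]
  intro he
  apply h
  have := e.2
  rw [he] at this
  exact this

lemma srw_eq (d : ℕ) (x y : V) : srwRate G d x y = (1 / (d : ℝ)) * ∑ e, inc G x y e := by
  unfold srwRate
  by_cases h : G.Adj x y
  · rw [if_pos h]
    have := sum_inc G x y (fun _ => 1) h
    simp only [mul_one] at this
    rw [this, mul_one]
  · rw [if_neg h]
    have := sum_inc_zero G x y (fun _ => 1) h
    simp only [mul_one] at this
    rw [this, mul_zero]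

/-- Indicator of an open edge. -/
noncomputable def op (η : G.edgeSet → Bool) (e : G.edgeSet) : ℝ := if η e = true then 1 else 0

open Classical in
lemma walk_eq (d : ℕ) (η ζ : G.edgeSet → Bool) (x y : V) :
    (if (∃ e : G.edgeSet, (e : Sym2 V) = s(x, y) ∧ η e = true) ∧ ζ = η
      then 1 / (d : ℝ) else 0)
      = if ζ = η then (1 / (d : ℝ)) * ∑ e, inc G x y e * op G η e else 0 := by
  by_cases hζ : ζ = η
  · rw [if_pos hζ]
    by_cases h : G.Adj x y
    · rw [sum_inc G x y _ h]
      unfold op
      by_cases ho : η ⟨s(x, y), h⟩ = true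
      · rw [if_pos ⟨⟨⟨s(x, y), h⟩, rfl, ho⟩, hζ⟩, if_pos ho, mul_one]
      · rw [if_neg, if_neg ho, mul_zero]
        rintro ⟨⟨e, he, hoe⟩, -⟩
        apply ho
        have : e = ⟨s(x, y), h⟩ := Subtype.ext he
        rw [← this]; exact hoe
    · rw [sum_inc_zero G x y _ h, if_neg, mul_zero]
      rintro ⟨⟨e, he, hoe⟩, -⟩
      apply h
      have := e.2
      rw [he] at this
      exact this
  · rw [if_neg hζ, if_neg]
    rintro ⟨-, h⟩; exact hζ h

lemma dynRate_eq (d : ℕ) (μ p : ℝ) (x y : V) (η ζ : G.edgeSet → Bool) :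
    dynRate G d μ p (x, η) (y, ζ)
      = (if ζ = η then (1 / (d : ℝ)) * ∑ e, inc G x y e * op G η e else 0)
        + ∑ e : G.edgeSet, ∑ b : Bool,
          (if y = x ∧ ζ = Function.update η e b then μ * bern p b else 0) := by
  unfold dynRate
  simp only
  rw [walk_eq]
  rfl

/-- The action of the rates. -/
lemma dynRate_sum (d : ℕ) (μ p : ℝ) (F : V × (G.edgeSet → Bool) → ℝ) (x : V)
    (η : G.edgeSet → Bool) :
    ∑ w, dynRate G d μ p (x, η) w * F w
      = (1 / (d : ℝ)) * ∑ y, ∑ e, inc G x y e * op G η e * F (y, η)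
        + ∑ e : G.edgeSet, ∑ b : Bool, μ * bern p b * F (x, Function.update η e b) := by
  rw [Fintype.sum_prod_type]
  simp_rw [dynRate_eq, add_mul]
  simp_rw [Finset.sum_add_distrib]
  congr 1
  · rw [Finset.mul_sum]
    apply Finset.sum_congr rfl
    intro y _
    simp only [ite_mul, zero_mul]
    rw [Finset.sum_ite_eq' Finset.univ η, if_pos (Finset.mem_univ _), Finset.mul_sum, Finset.mul_sum,
      Finset.sum_mul]
    apply Finset.sum_congr rfl
    intro e _; ring
  · simp_rw [Finset.sum_mul]
    have h1 : ∀ y : V, ∑ ζ : G.edgeSet → Bool, ∑ e : G.edgeSet, ∑ b : Bool,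
        (if y = x ∧ ζ = Function.update η e b then μ * bern p b else 0) * F (y, ζ)
        = if y = x then ∑ e : G.edgeSet, ∑ b : Bool, μ * bern p b * F (y, Function.update η e b)
          else 0 := by
      intro y
      by_cases hy : y = x
      · rw [if_pos hy, Finset.sum_comm]
        apply Finset.sum_congr rfl
        intro e _
        rw [Finset.sum_comm]
        apply Finset.sum_congr rfl
        intro b _
        simp only [hy, true_and, ite_mul, zero_mul]
        rw [Finset.sum_ite_eq' Finset.univ (Function.update η e b), if_pos (Finset.mem_univ _)]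
      · rw [if_neg hy]
        apply Finset.sum_eq_zero; intro ζ _
        apply Finset.sum_eq_zero; intro e _
        apply Finset.sum_eq_zero; intro b _
        rw [if_neg, zero_mul]
        rintro ⟨h, -⟩; exact hy h
    simp_rw [h1]
    rw [Finset.sum_ite_eq' Finset.univ x, if_pos (Finset.mem_univ _)]

/-- The action of the generator of the full process. -/
lemma dyn_action (d : ℕ) (μ p : ℝ) (f : V × (G.edgeSet → Bool) → ℝ) (x : V)
    (η : G.edgeSet → Bool) :
    ∑ w, generator (dynRate G d μ p) (x, η) w * f w
      = (1 / (d : ℝ)) * ∑ y, ∑ e, inc G x y e * op G η e * (f (y, η) - f (x, η))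
        + ∑ e : G.edgeSet, μ * (rs p e (fun ζ => f (x, ζ)) η - f (x, η)) := by
  rw [generator_sum, dynRate_sum]
  congr 1
  apply Finset.sum_congr rfl
  intro e _
  unfold rs
  rw [mul_sub, Finset.mul_sum]
  have h := bern_sum p
  rw [Fintype.sum_bool] at h ⊢
  rw [Fintype.sum_bool]
  linear_combination (-μ * f (x, η)) * h

lemma srw_action (d : ℕ) (f : V → ℝ) (x : V) :
    ∑ y, generator (srwRate G d) x y * f y
      = (1 / (d : ℝ)) * ∑ y, ∑ e, inc G x y e * (f y - f x) := by
  rw [generator_sum, Finset.mul_sum]
  apply Finset.sum_congr rfl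
  intro y _
  rw [srw_eq, ← Finset.sum_mul]; ring

/-! ### Stationary law and reversibility -/

lemma dynLaw_eq (p : ℝ) (x : V) (η : G.edgeSet → Bool) :
    dynLaw G p (x, η) = 1 / (Fintype.card V : ℝ) * envW p η := rfl

lemma dynLaw_pos [Nonempty V] {p : ℝ} (h0 : 0 < p) (h1 : p < 1) (z : V × (G.edgeSet → Bool)) :
    0 < dynLaw G p z := by
  obtain ⟨x, η⟩ := z
  rw [dynLaw_eq]
  have : (0 : ℝ) < Fintype.card V := by exact_mod_cast Fintype.card_pos
  have h2 : 0 < envW p η := envW_pos h0 h1 η
  positivity

lemma dynLaw_sum_mul (p : ℝ) (F : V × (G.edgeSet → Bool) → ℝ) :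
    ∑ z, dynLaw G p z * F z
      = (1 / (Fintype.card V : ℝ)) * ∑ x, ∑ η, envW p η * F (x, η) := by
  rw [Fintype.sum_prod_type, Finset.mul_sum]
  apply Finset.sum_congr rfl
  intro x _
  rw [Finset.mul_sum]
  apply Finset.sum_congr rfl
  intro η _
  rw [dynLaw_eq]; ring

lemma dynLaw_sum [Nonempty V] (p : ℝ) : ∑ z, dynLaw G p z = 1 := by
  have h := dynLaw_sum_mul G p (fun _ => 1)
  simp only [mul_one] at h
  rw [h]
  simp_rw [envW_sum]
  rw [Finset.sum_const, Finset.card_univ, nsmul_eq_mul, mul_one]
  have : (Fintype.card V : ℝ) ≠ 0 := by exact_mod_cast Fintype.card_ne_zero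
  field_simp

lemma env_flip_symm (p : ℝ) {E : Type*} [Fintype E] [DecidableEq E] (η ζ : E → Bool) (e : E)
    (μ : ℝ) :
    envW p η * ∑ b : Bool, (if ζ = Function.update η e b then μ * bern p b else 0)
      = envW p ζ * ∑ b : Bool, (if η = Function.update ζ e b then μ * bern p b else 0) := by
  by_cases h : ζ = Function.update η e (ζ e)
  · have h' : η = Function.update ζ e (η e) := by
      rw [h]; simp
    have h1 : ∑ b : Bool, (if ζ = Function.update η e b then μ * bern p b else 0)
        = μ * bern p (ζ e) := by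
      rw [Finset.sum_eq_single (ζ e)]
      · rw [if_pos h]
      · intro b _ hb
        rw [if_neg]
        intro h2
        apply hb
        have := congrFun h2 e
        rw [Function.update_self] at this
        exact this.symm
      · intro h; exact absurd (Finset.mem_univ _) h
    have h2 : ∑ b : Bool, (if η = Function.update ζ e b then μ * bern p b else 0)
        = μ * bern p (η e) := by
      rw [Finset.sum_eq_single (η e)]
      · rw [if_pos h']
      · intro b _ hb
        rw [if_neg]
        intro h2
        apply hb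
        have := congrFun h2 e
        rw [Function.update_self] at this
        exact this.symm
      · intro h; exact absurd (Finset.mem_univ _) h
    rw [h1, h2]
    have h3 := envW_update p η e (ζ e)
    rw [← h] at h3
    linear_combination (-μ) * h3
  · have h1 : ∑ b : Bool, (if ζ = Function.update η e b then μ * bern p b else 0) = 0 := by
      apply Finset.sum_eq_zero
      intro b _
      rw [if_neg]
      intro h2
      apply h
      have := congrFun h2 e
      rw [Function.update_self] at this
      rw [this]; exact h2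
    have h2 : ∑ b : Bool, (if η = Function.update ζ e b then μ * bern p b else 0) = 0 := by
      apply Finset.sum_eq_zero
      intro b _
      rw [if_neg]
      intro h2
      apply h
      rw [h2]; simp
    rw [h1, h2]; ring

lemma dyn_rev (d : ℕ) (μ p : ℝ) (z w : V × (G.edgeSet → Bool)) :
    dynLaw G p z * dynRate G d μ p z w = dynLaw G p w * dynRate G d μ p w z := by
  obtain ⟨x, η⟩ := z
  obtain ⟨y, ζ⟩ := w
  rw [dynRate_eq, dynRate_eq, dynLaw_eq, dynLaw_eq, mul_add, mul_add]
  congr 1
  · by_cases h : ζ = η
    · subst h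
      simp only [if_true]
      congr 2
      apply Finset.sum_congr rfl
      intro e _
      rw [inc_symm]
    · rw [if_neg h, if_neg (Ne.symm h)]; ring
  · by_cases h : y = x
    · subst h
      simp only [true_and]
      rw [Finset.mul_sum, Finset.mul_sum]
      apply Finset.sum_congr rfl
      intro e _
      have := env_flip_symm p η ζ e μ
      rw [mul_assoc, mul_assoc, this]
    · have h' : ¬ x = y := Ne.symm h
      simp [h, h']

lemma dynRate_nonneg (d : ℕ) {μ p : ℝ} (hμ : 0 ≤ μ) (h0 : 0 < p) (h1 : p < 1)
    (z w : V × (G.edgeSet → Bool)) : 0 ≤ dynRate G d μ p z w := by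
  obtain ⟨x, η⟩ := z
  obtain ⟨y, ζ⟩ := w
  rw [dynRate_eq]
  apply add_nonneg
  · split_ifs
    · apply mul_nonneg (by positivity)
      apply Finset.sum_nonneg
      intro e _
      apply mul_nonneg (inc_nonneg G x y e)
      unfold op; split_ifs <;> norm_num
    · exact le_refl _
  · apply Finset.sum_nonneg; intro e _
    apply Finset.sum_nonneg; intro b _
    split_ifs
    · exact mul_nonneg hμ (bern_pos h0 h1 b).le
    · exact le_refl _

end Pool.Agent.W_MP_6c8c83_pr
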