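import Pool.Agent.W_MP_6c8c83_pr.Perc
import Pool.Agent.W_MP_6c8c83_pr.Defs

/-!
Generators: action on functions, reversibility, nonnegativity of the kernels.
-/

set_option linter.unusedSectionVars false

namespace Pool.Agent.W_MP_6c8c83_pr

open scoped BigOperators Matrix
open NormedSpace (exp)

variable {S : Type*} [Fintype S] [DecidableEq S]

lemma generator_sum (R : Matrix S S ℝ) (f : S → ℝ) (z : S) :
    ∑ w, generator R z w * f w = ∑ w, R z w * (f w - f z) := by
  unfold generator
  simp only [Matrix.sub_apply, Matrix.diagonal_apply, sub_mul, ite_mul, zero_mul, mul_sub]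
  rw [Finset.sum_sub_distrib, Finset.sum_sub_distrib, Finset.sum_ite_eq, if_pos (Finset.mem_univ _),
    Finset.sum_mul]

lemma generator_row (R : Matrix S S ℝ) (z : S) : ∑ w, generator R z w = 0 := by
  have h := generator_sum R (fun _ => 1) z
  simpa using h

lemma generator_rev (R : Matrix S S ℝ) (π : S → ℝ) (h : ∀ z w, π z * R z w = π w * R w z)
    (z w : S) : π z * generator R z w = π w * generator R w z := by
  unfold generator
  simp only [Matrix.sub_apply, Matrix.diagonal_apply, mul_sub]
  by_cases hzw : z = w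
  · subst hzw; rfl
  · rw [if_neg hzw, if_neg (Ne.symm hzw), h z w]; ring

lemma kernel_nonneg (R : Matrix S S ℝ) (hR : ∀ z w, 0 ≤ R z w) (t : ℝ) (ht : 0 ≤ t) (z w : S) :
    0 ≤ exp (t • generator R) z w := by
  set c : ℝ := ∑ z, ∑ w, R z w with hc
  have hcz : ∀ z, ∑ w, R z w ≤ c := fun z =>
    Finset.single_le_sum (f := fun z => ∑ w, R z w)
      (fun i _ => Finset.sum_nonneg (fun w _ => hR i w)) (Finset.mem_univ z)
  have h1 : t • generator R = t • (generator R + c • (1 : Matrix S S ℝ))
      + Matrix.diagonal (fun _ : S => -(t * c)) := by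
    ext a b
    simp only [Matrix.smul_apply, Matrix.add_apply, Matrix.diagonal_apply, Matrix.one_apply,
      smul_eq_mul]
    split_ifs <;> ring
  have hcomm : Commute (t • (generator R + c • (1 : Matrix S S ℝ)))
      (Matrix.diagonal (fun _ : S => -(t * c))) := by
    have : Matrix.diagonal (fun _ : S => -(t * c)) = (-(t * c)) • (1 : Matrix S S ℝ) := by
      ext a b; simp [Matrix.diagonal_apply, Matrix.one_apply]
    rw [this]
    exact (Commute.one_right _).smul_right _
  rw [h1, Matrix.exp_add_of_commute _ _ hcomm, exp_diag, Matrix.mul_diagonal]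
  apply mul_nonneg _ (Real.exp_pos _).le
  apply exp_nonneg_of_nonneg
  intro i j
  simp only [Matrix.smul_apply, Matrix.add_apply, smul_eq_mul]
  apply mul_nonneg ht
  unfold generator
  simp only [Matrix.sub_apply, Matrix.diagonal_apply, Matrix.one_apply]
  by_cases hij : i = j
  · subst hij
    simp only [if_true]
    have := hcz i
    have := hR i i
    linarith
  · simp only [if_neg hij]
    have := hR i j
    linarith

/-- If all rows of `R` sum to one, then `exp (t Q) z w ≥ e^{-t} t^n (R^n) z w / n!`. -/
lemma kernel_ge (R : Matrix S S ℝ) (hR : ∀ z w, 0 ≤ R z w) (hR1 : ∀ z, ∑ w, R z w = 1)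
    (t : ℝ) (ht : 0 ≤ t) (z w : S) (n : ℕ) :
    Real.exp (-t) * (((n.factorial : ℝ)⁻¹) * (t ^ n * (R ^ n) z w))
      ≤ exp (t • generator R) z w := by
  have h1 : t • generator R = t • R + Matrix.diagonal (fun _ : S => -t) := by
    ext a b
    unfold generator
    simp only [Matrix.smul_apply, Matrix.sub_apply, Matrix.add_apply, Matrix.diagonal_apply,
      smul_eq_mul, hR1]
    split_ifs <;> ring
  have hcomm : Commute (t • R) (Matrix.diagonal (fun _ : S => -t)) := by
    have : Matrix.diagonal (fun _ : S => -t) = (-t) • (1 : Matrix S S ℝ) := by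
      ext a b; simp [Matrix.diagonal_apply, Matrix.one_apply]
    rw [this]
    exact (Commute.one_right _).smul_right _
  rw [h1, Matrix.exp_add_of_commute _ _ hcomm, exp_diag, Matrix.mul_diagonal, mul_comm]
  apply mul_le_mul_of_nonneg_right _ (Real.exp_pos _).le
  have h2 := term_le_exp (t • R) (fun i j => by
    simp only [Matrix.smul_apply, smul_eq_mul]; exact mul_nonneg ht (hR i j)) z w n
  rw [smul_pow] at h2
  simpa only [Matrix.smul_apply, smul_eq_mul] using h2

end Pool.Agent.W_MP_6c8c83_pr
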