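import Pool.Agent.W_MP_6c8c83_pr.Srw

/-!
The main bound on the `L^∞` mixing time of the full process.
-/

set_option linter.unusedSectionVars false

namespace Pool.Agent.W_MP_6c8c83_pr

open scoped BigOperators Matrix
open NormedSpace (exp)

variable {V : Type*} [Fintype V] [DecidableEq V] (G : SimpleGraph V) [DecidableRel G.Adj]

lemma card_edges {d : ℕ} (hd : 1 ≤ d) (hreg : G.IsRegularOfDegree d) [Nonempty V] :
    (1 : ℝ) ≤ Fintype.card G.edgeSet ∧
      (Fintype.card G.edgeSet : ℝ) ≤ d * Fintype.card V := by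
  have h1 : ∑ v, G.degree v = 2 * Fintype.card G.edgeSet := by
    rw [SimpleGraph.sum_degrees_eq_twice_card_edges, SimpleGraph.edgeFinset_card]
  have h2 : ∑ v, G.degree v = Fintype.card V * d := by
    rw [Finset.sum_congr rfl (fun v _ => hreg v)]
    simp
  rw [h2] at h1
  have hn : 1 ≤ Fintype.card V := Fintype.card_pos
  have h3 : 1 ≤ Fintype.card V * d := Nat.one_le_iff_ne_zero.mpr (by positivity)
  constructor
  · have : 1 ≤ Fintype.card G.edgeSet := by omega
    exact_mod_cast this
  · have : Fintype.card G.edgeSet ≤ d * Fintype.card V := by nlinarith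
    exact_mod_cast this

lemma card_two {d : ℕ} (hd : 1 ≤ d) (hreg : G.IsRegularOfDegree d) [Nonempty V] :
    (2 : ℝ) ≤ Fintype.card V := by
  obtain ⟨x⟩ := ‹Nonempty V›
  have h1 : 0 < G.degree x := by rw [hreg x]; exact hd
  rw [SimpleGraph.degree_pos_iff_exists_adj] at h1
  obtain ⟨y, hy⟩ := h1
  have h2 : 1 < Fintype.card V := Fintype.one_lt_card_iff.mpr ⟨x, y, hy.ne⟩
  exact_mod_cast h2

/-- The final arithmetic. -/
lemma final_arith {μ p τ L ld ln lm lc l20 : ℝ} (hμ0 : 0 < μ) (h0 : 0 < p) (h1 : p < 1)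
    (hτ0 : 0 < τ) (hτ3 : 1 ≤ 3 * τ) (hL0 : 0 ≤ L) (hld : 0 ≤ ld) (hln : ln ≤ 3 / 2 * τ)
    (hlm : lm ≤ ld + ln) (hlc : -lc ≤ 1 / p + L) (hl20 : l20 ≤ 19 + lm) :
    ((lm - lc) / μ + (1 + ln) / (2 * μ) + (6 * τ / (μ * p) + l20 / μ))
      + ((lm - lc) / μ + (1 + ln) / (2 * μ) + (6 * τ / (μ * p) + l20 / μ))
      ≤ (300 * (1 + ld)) * ((μ * p)⁻¹ * τ + μ⁻¹ * L) := by
  have e1 : ((lm - lc) / μ + (1 + ln) / (2 * μ) + (6 * τ / (μ * p) + l20 / μ))
      + ((lm - lc) / μ + (1 + ln) / (2 * μ) + (6 * τ / (μ * p) + l20 / μ))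
      = (μ * p)⁻¹ * (p * (2 * (lm - lc) + (1 + ln) + 2 * l20) + 12 * τ) := by
    field_simp; ring
  have hdl : 0 ≤ ld * τ := mul_nonneg hld hτ0.le
  have e2 : p * (2 * (lm - lc) + (1 + ln) + 2 * l20)
      ≤ 2 + p * (2 * L) + (4 * ld + 15 / 2 * τ + 39) := by
    have e3 : 2 * (lm - lc) + (1 + ln) + 2 * l20
        ≤ 2 * (1 / p) + 2 * L + (4 * ld + 15 / 2 * τ + 39) := by
      linarith
    have e4 := mul_le_mul_of_nonneg_left e3 h0.le
    have e5 : p * (2 * (1 / p) + 2 * L + (4 * ld + 15 / 2 * τ + 39))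
        = 2 + p * (2 * L) + p * (4 * ld + 15 / 2 * τ + 39) := by
      field_simp
    have e6 : p * (4 * ld + 15 / 2 * τ + 39) ≤ 1 * (4 * ld + 15 / 2 * τ + 39) :=
      mul_le_mul_of_nonneg_right h1.le (by linarith)
    linarith
  have e8 : 4 * ld ≤ 12 * (ld * τ) := by
    have := mul_le_mul_of_nonneg_left hτ3 hld
    linarith
  have e9 : p * (2 * L) ≤ p * (300 * (1 + ld)) * L := by
    have e10 : 0 ≤ p * L * (298 + 300 * ld) := by positivity
    have e11 : p * (300 * (1 + ld)) * L - p * (2 * L) = p * L * (298 + 300 * ld) := by ring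
    linarith
  have e7 : p * (2 * (lm - lc) + (1 + ln) + 2 * l20) + 12 * τ
      ≤ 300 * (1 + ld) * τ + p * (300 * (1 + ld)) * L := by
    have e12 : 300 * (1 + ld) * τ = 300 * τ + 300 * (ld * τ) := by ring
    rw [e12]
    linarith
  rw [e1]
  calc (μ * p)⁻¹ * (p * (2 * (lm - lc) + (1 + ln) + 2 * l20) + 12 * τ)
      ≤ (μ * p)⁻¹ * (300 * (1 + ld) * τ + p * (300 * (1 + ld)) * L) :=
        mul_le_mul_of_nonneg_left e7 (by positivity)
    _ = (300 * (1 + ld)) * ((μ * p)⁻¹ * τ + μ⁻¹ * L) := by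
        field_simp

/-- The bound for `d ≥ 1`. -/
theorem main_bound {d : ℕ} (hd : 1 ≤ d) (hreg : G.IsRegularOfDegree d) (hc : G.Connected)
    (hvt : VertexTransitive G) {μ p : ℝ} (hμ0 : 0 < μ) (hμ1 : μ ≤ 1) (h0 : 0 < p) (h1 : p < 1) :
    mixingTimeInf (dynRate G d μ p) (dynLaw G p)
      ≤ (300 * (1 + Real.log d)) * ((μ * p)⁻¹ * mixingTimeInf (srwRate G d) (uniformLaw V)
        + μ⁻¹ * |Real.log (1 - p)|) := by
  have hV : Nonempty V := hc.nonempty
  obtain ⟨hm1, hmd⟩ := card_edges G hd hreg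
  have hn2 := card_two G hd hreg
  set n : ℝ := (Fintype.card V : ℝ) with hn
  set m : ℝ := (Fintype.card G.edgeSet : ℝ) with hm
  set τ := mixingTimeInf (srwRate G d) (uniformLaw V) with hτ
  have hτmem := srw_time_mem G hd hreg hc
  rw [← hτ] at hτmem
  have hτge := srw_time_ge G hd hreg hc
  rw [← hτ, ← hn] at hτge
  have hd1 : (1 : ℝ) ≤ d := by exact_mod_cast hd
  -- consequences of the lower bound on `τ`
  have hlog85 : Real.log (8 / 5) ≤ τ := by
    refine le_trans ?_ hτge
    apply Real.log_le_log (by norm_num)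
    rw [div_le_div_iff_of_pos_right (by norm_num)]
    linarith
  have h13 : (1 : ℝ) / 3 ≤ Real.log (8 / 5) := by
    rw [Real.le_log_iff_exp_le (by norm_num)]
    have h := Real.one_sub_le_exp_neg (1 / 3 : ℝ)
    have h2 : Real.exp (-(1 / 3 : ℝ)) * Real.exp (1 / 3) = 1 := by rw [← Real.exp_add]; simp
    have h3 := Real.exp_pos (1 / 3 : ℝ)
    nlinarith
  have hτ3 : 1 ≤ 3 * τ := by linarith
  have hτ0 : 0 < τ := by linarith
  have hlogn : Real.log n ≤ 3 / 2 * τ := by
    have e1 : Real.log (4 * n / 5) = Real.log n - Real.log (5 / 4) := by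
      rw [← Real.log_div (by positivity) (by norm_num)]
      congr 1; field_simp
    have e2 : 2 * Real.log (5 / 4) ≤ Real.log (8 / 5) := by
      have : 2 * Real.log (5 / 4) = Real.log ((5 / 4) ^ 2) := by
        rw [Real.log_pow]; norm_num
      rw [this]
      apply Real.log_le_log (by norm_num)
      norm_num
    linarith
  have hlogn0 : 0 ≤ Real.log n := Real.log_nonneg (by linarith)
  have hlogd0 : 0 ≤ Real.log d := Real.log_nonneg hd1
  have hlogm0 : 0 ≤ Real.log m := Real.log_nonneg hm1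
  have hlogm : Real.log m ≤ Real.log d + Real.log n := by
    rw [← Real.log_mul (by positivity) (by positivity)]
    exact Real.log_le_log (by positivity) hmd
  -- the parameter `c = min p (1-p)`
  set c : ℝ := min p (1 - p) with hcdef
  have hc0 : 0 < c := lt_min h0 (by linarith)
  have hcp : c ≤ p := min_le_left _ _
  have hcq : c ≤ 1 - p := min_le_right _ _
  have hc1 : c ≤ 1 := hcp.trans h1.le
  have hlogc0 : 0 ≤ -Real.log c := by
    have := Real.log_nonpos hc0.le hc1; linarith
  have hlogc : -Real.log c ≤ 1 / p + |Real.log (1 - p)| := by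
    have e1 : -Real.log p ≤ 1 / p := by
      have := Real.log_le_sub_one_of_pos (show (0 : ℝ) < 1 / p by positivity)
      rw [Real.log_div one_ne_zero h0.ne', Real.log_one] at this
      linarith
    have e2 : 0 ≤ |Real.log (1 - p)| := abs_nonneg _
    have e3 : -Real.log (1 - p) ≤ |Real.log (1 - p)| := neg_le_abs _
    have e4 : (0 : ℝ) < 1 / p := by positivity
    rcases min_choice p (1 - p) with h | h
    · rw [hcdef, h]; linarith
    · rw [hcdef, h]; linarith
  -- times
  set s1 : ℝ := (Real.log m - Real.log c) / μ with hs1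
  set s2 : ℝ := (1 + Real.log n) / (2 * μ) with hs2
  set t : ℝ := 6 * τ / (μ * p) + (Real.log (20 * m)) / μ with ht
  have hs10 : 0 ≤ s1 := div_nonneg (by linarith) hμ0.le
  have hs20 : 0 ≤ s2 := div_nonneg (by linarith) (by linarith)
  have hlog20m : 0 ≤ Real.log (20 * m) := Real.log_nonneg (by linarith)
  have ht0 : 0 ≤ t := by positivity
  -- density bound at time `s1`
  have hexp1 : Real.exp (-(μ * s1)) / c = 1 / m := by
    have e1 : μ * s1 = Real.log m - Real.log c := by rw [hs1]; field_simp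
    rw [e1, neg_sub, Real.exp_sub, Real.exp_log hc0, Real.exp_log (by positivity)]
    field_simp
  have hM : n * (1 + Real.exp (-(μ * s1)) / c) ^ Fintype.card G.edgeSet ≤ n * Real.exp 1 := by
    apply mul_le_mul_of_nonneg_left _ (by positivity)
    rw [hexp1]
    have e1 : 1 + 1 / m ≤ Real.exp (1 / m) := by
      have := Real.add_one_le_exp (1 / m); linarith
    calc (1 + 1 / m) ^ Fintype.card G.edgeSet ≤ (Real.exp (1 / m)) ^ Fintype.card G.edgeSet :=
          pow_le_pow_left₀ (by positivity) e1 _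
      _ = Real.exp 1 := by
          rw [← Real.exp_nat_mul, ← hm]
          congr 1; field_simp
  -- gap
  set Q := generator (dynRate G d μ p) with hQ
  have hπ := dynLaw_pos G h0 h1
  have hπ1 := dynLaw_sum G p
  have hrev := generator_rev (dynRate G d μ p) (dynLaw G p) (dyn_rev G d μ p)
  have hrow := generator_row (dynRate G d μ p)
  have hRn := fun z w => dynRate_nonneg G d hμ0.le h0 h1 z w
  let H : Subgroup (Equiv.Perm (V × (G.edgeSet → Bool))) := chainAut Q (dynLaw G p)
  have hfin : Fintype H := Fintype.ofFinite H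
  have hexp2 : n * Real.exp 1 * Real.exp (-(2 * μ * s2)) = 1 := by
    have e1 : 2 * μ * s2 = 1 + Real.log n := by rw [hs2]; field_simp
    rw [e1, mul_assoc, ← Real.exp_add]
    have e2 : 1 + -(1 + Real.log n) = -Real.log n := by ring
    rw [e2, Real.exp_neg, Real.exp_log (by positivity)]
    field_simp
  -- trace bound
  have htr : (exp ((t + t) • Q)).trace ≤ 1 + 1 / 8 := by
    have e1 := full_trace_le G d hd hμ0 hμ1 h0 h1 (t + t) (by linarith)
    have e2 : (t + t) * (μ * p / 6) = t * (μ * p / 6) + t * (μ * p / 6) := by ring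
    have e3 : t * (μ * p / 6) ∈ mixedSet (srwRate G d) (uniformLaw V) := by
      apply mixedSet_upward _ (srwRate_nonneg G d) _ τ _ hτmem
      have e4 : τ = 6 * τ / (μ * p) * (μ * p / 6) := by field_simp
      rw [e4]
      apply mul_le_mul_of_nonneg_right _ (by positivity)
      rw [ht]
      have : 0 ≤ Real.log (20 * m) / μ := div_nonneg hlog20m hμ0.le
      linarith
    have e5 := srw_trace_le G hc _ e3
    rw [e2] at e1
    have e6 : (1 + Real.exp (-(μ * ((t + t) * (1 / 2))))) ^ Fintype.card G.edgeSet ≤ 18 / 17 := by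
      have e7 : Real.exp (-(μ * ((t + t) * (1 / 2)))) ≤ 1 / (20 * m) := by
        have e8 : Real.log (20 * m) ≤ μ * ((t + t) * (1 / 2)) := by
          have e9 : μ * ((t + t) * (1 / 2)) = 6 * τ / p + Real.log (20 * m) := by
            rw [ht]; field_simp; ring
          rw [e9]
          have : 0 ≤ 6 * τ / p := by positivity
          linarith
        calc Real.exp (-(μ * ((t + t) * (1 / 2)))) ≤ Real.exp (-Real.log (20 * m)) :=
              Real.exp_le_exp.mpr (by linarith)
          _ = 1 / (20 * m) := by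
              rw [Real.exp_neg, Real.exp_log (by positivity), one_div]
      have e10 : 1 + Real.exp (-(μ * ((t + t) * (1 / 2)))) ≤ Real.exp (1 / (20 * m)) := by
        have := Real.add_one_le_exp (1 / (20 * m)); linarith
      calc (1 + Real.exp (-(μ * ((t + t) * (1 / 2))))) ^ Fintype.card G.edgeSet
          ≤ (Real.exp (1 / (20 * m))) ^ Fintype.card G.edgeSet := by
            apply pow_le_pow_left₀ _ e10
            have := Real.exp_pos (-(μ * ((t + t) * (1 / 2))))
            linarith
        _ = Real.exp (1 / 20) := by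
            rw [← Real.exp_nat_mul, ← hm]
            congr 1; field_simp
        _ ≤ 18 / 17 := by
            have h := Real.one_sub_le_exp_neg (1 / 20 : ℝ)
            have h2 : Real.exp (-(1 / 20 : ℝ)) * Real.exp (1 / 20) = 1 := by
              rw [← Real.exp_add]; simp
            have h3 := Real.exp_pos (1 / 20 : ℝ)
            nlinarith
    have e11 : 0 ≤ (1 + Real.exp (-(μ * ((t + t) * (1 / 2))))) ^ Fintype.card G.edgeSet := by
      have := Real.exp_pos (-(μ * ((t + t) * (1 / 2))))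
      positivity
    calc (exp ((t + t) • Q)).trace ≤ _ := e1
      _ ≤ (1 + 1 / 16) * (18 / 17) := mul_le_mul e5 e6 e11 (by norm_num)
      _ = 1 + 1 / 8 := by norm_num
  -- apply the abstract bound
  have hmix := abstract_bound H hπ hπ1 hrev hrow (fun g z w => g.2.1 z w) (fun g z => g.2.2 z) μ
    (by
      intro f hf hf0
      exact inv_gap G d hμ0 h0 h1 hvt f (fun φ z => hf ⟨autPerm φ, autPerm_mem G d μ p φ⟩ z) hf0)
    s1 s2 t (n * Real.exp 1) (1 / 8) hs20
    (fun z w => kernel_nonneg _ hRn _ (by linarith) z w)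
    (by positivity)
    (fun z w => kernel_nonneg _ hRn _ hs10 z w)
    (fun z w => by
      have e1 := full_le G d hμ0 hs10 h0 h1 hc0 hcp hcq z w
      refine e1.trans ?_
      exact mul_le_mul_of_nonneg_right hM (hπ w).le)
    htr
  have hle : mixingTimeInf (dynRate G d μ p) (dynLaw G p) ≤ (s1 + s2 + t) + (s1 + s2 + t) := by
    apply csInf_le ⟨0, fun _ h => h.1⟩
    refine ⟨by linarith, fun z w => ?_⟩
    have e1 := hmix z w
    rw [hexp2] at e1
    have e2 : (1 / 8 : ℝ) * (1 + 1) = 1 / 4 := by norm_num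
    rw [e2] at e1
    exact e1
  refine hle.trans ?_
  have hlog20 : Real.log (20 * m) ≤ 19 + Real.log m := by
    rw [Real.log_mul (by norm_num) (by positivity)]
    have := Real.log_le_sub_one_of_pos (show (0 : ℝ) < 20 by norm_num)
    linarith
  exact final_arith hμ0 h0 h1 hτ0 hτ3 (abs_nonneg _) hlogd0 hlogn hlogm hlogc hlog20

end Pool.Agent.W_MP_6c8c83_pr
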