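import Mathlib

/-!
General lemmas about exponentials of real matrices.
-/

namespace Pool.Agent.W_MP_6c8c83_pr

open scoped BigOperators Matrix
open NormedSpace (exp)

variable {S T : Type*} [Fintype S] [DecidableEq S] [Fintype T] [DecidableEq T]

set_option backward.isDefEq.respectTransparency false in
lemma exp_hasSum (A : Matrix S S ℝ) :
    HasSum (fun n : ℕ => ((n.factorial : ℝ)⁻¹) • A ^ n) (exp A) := by
  open scoped Matrix.Norms.Operator in
  exact NormedSpace.exp_series_hasSum_exp' (𝕂 := ℝ) A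

lemma exp_hasSum_apply (A : Matrix S S ℝ) (i j : S) :
    HasSum (fun n : ℕ => ((n.factorial : ℝ)⁻¹) * (A ^ n) i j) (exp A i j) := by
  have h := exp_hasSum A
  have h2 := (Pi.hasSum.mp h) i
  have h3 := (Pi.hasSum.mp h2) j
  simpa using h3

lemma pow_nonneg_of_nonneg (A : Matrix S S ℝ) (h : ∀ i j, 0 ≤ A i j) (n : ℕ) :
    ∀ i j, 0 ≤ (A ^ n) i j := by
  induction n with
  | zero => intro i j; rw [pow_zero, Matrix.one_apply]; split_ifs <;> norm_num
  | succ n ih =>
    intro i j
    rw [pow_succ, Matrix.mul_apply]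
    exact Finset.sum_nonneg (fun k _ => mul_nonneg (ih i k) (h k j))

lemma exp_nonneg_of_nonneg (A : Matrix S S ℝ) (h : ∀ i j, 0 ≤ A i j) (i j : S) :
    0 ≤ exp A i j :=
  (exp_hasSum_apply A i j).nonneg
    (fun n => mul_nonneg (by positivity) (pow_nonneg_of_nonneg A h n i j))

/-- For an entrywise nonnegative matrix every term of the exponential series is a lower bound. -/
lemma term_le_exp (A : Matrix S S ℝ) (h : ∀ i j, 0 ≤ A i j) (i j : S) (n : ℕ) :
    ((n.factorial : ℝ)⁻¹) * (A ^ n) i j ≤ exp A i j :=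
  le_hasSum (exp_hasSum_apply A i j) n
    (fun m _ => mul_nonneg (by positivity) (pow_nonneg_of_nonneg A h m i j))

/-- Intertwining: `A J = J B` implies `exp A * J = J * exp B`. -/
lemma exp_intertwine (A : Matrix S S ℝ) (B : Matrix T T ℝ) (J : Matrix S T ℝ)
    (h : A * J = J * B) : exp A * J = J * exp B := by
  have hpow : ∀ n : ℕ, A ^ n * J = J * B ^ n := by
    intro n
    induction n with
    | zero => simp
    | succ n ih => rw [pow_succ, Matrix.mul_assoc, h, ← Matrix.mul_assoc, ih, Matrix.mul_assoc,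
        ← pow_succ]
  ext i j
  have h1 : HasSum (fun n : ℕ => ((n.factorial : ℝ)⁻¹) * (A ^ n * J) i j) ((exp A * J) i j) := by
    simp only [Matrix.mul_apply, Finset.mul_sum]
    apply hasSum_sum
    intro k _
    have := (exp_hasSum_apply A i k).mul_right (J k j)
    simpa [mul_assoc] using this
  have h2 : HasSum (fun n : ℕ => ((n.factorial : ℝ)⁻¹) * (J * B ^ n) i j) ((J * exp B) i j) := by
    simp only [Matrix.mul_apply, Finset.mul_sum]
    apply hasSum_sum
    intro k _
    have := (exp_hasSum_apply B k j).mul_left (J i k)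
    refine this.congr_fun ?_ |> fun h => h
    intro n; ring
  have h3 : (fun n : ℕ => ((n.factorial : ℝ)⁻¹) * (A ^ n * J) i j)
      = (fun n : ℕ => ((n.factorial : ℝ)⁻¹) * (J * B ^ n) i j) := by
    funext n; rw [hpow n]
  rw [h3] at h1
  exact h1.unique h2

set_option backward.isDefEq.respectTransparency false in
lemma hasDerivAt_exp_smul (A : Matrix S S ℝ) (t : ℝ) (i j : S) :
    HasDerivAt (fun s : ℝ => exp (s • A) i j) ((A * exp (t • A)) i j) t := by
  open scoped Matrix.Norms.Operator in
  have h : HasDerivAt (fun s : ℝ => exp (s • A)) (A * exp (t • A)) t :=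
    hasDerivAt_exp_smul_const' A t
  let L : Matrix S S ℝ →ₗ[ℝ] ℝ := Matrix.entryLinearMap ℝ ℝ i j
  have h2 := (LinearMap.toContinuousLinearMap L).hasFDerivAt.comp_hasDerivAt t h
  exact h2

set_option backward.isDefEq.respectTransparency false in
lemma hasDerivAt_exp_smul' (A : Matrix S S ℝ) (t : ℝ) (i j : S) :
    HasDerivAt (fun s : ℝ => exp (s • A) i j) ((exp (t • A) * A) i j) t := by
  open scoped Matrix.Norms.Operator in
  have h : HasDerivAt (fun s : ℝ => exp (s • A)) (exp (t • A) * A) t :=
    hasDerivAt_exp_smul_const A t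
  let L : Matrix S S ℝ →ₗ[ℝ] ℝ := Matrix.entryLinearMap ℝ ℝ i j
  have h2 := (LinearMap.toContinuousLinearMap L).hasFDerivAt.comp_hasDerivAt t h
  exact h2

lemma exp_smul_add (A : Matrix S S ℝ) (s t : ℝ) :
    exp ((s + t) • A) = exp (s • A) * exp (t • A) := by
  rw [add_smul]
  exact Matrix.exp_add_of_commute _ _ (((Commute.refl A).smul_left s).smul_right t)

lemma exp_neg_mul_exp (A : Matrix S S ℝ) (t : ℝ) :
    exp (t • A) * exp ((-t) • A) = 1 := by
  rw [← exp_smul_add]; simp

/-- Uniqueness of solutions of the backward equation. -/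
lemma eq_exp_of_hasDerivAt (A : Matrix S S ℝ) (K : ℝ → Matrix S S ℝ)
    (hK : ∀ t i j, HasDerivAt (fun s => K s i j) ((A * K t) i j) t) (h0 : K 0 = 1) (t : ℝ) :
    K t = exp (t • A) := by
  have hneg : ∀ t i j, HasDerivAt (fun s : ℝ => exp ((-s) • A) i j)
      (-(exp ((-t) • A) * A) i j) t := by
    intro t i j
    have h1 := (hasDerivAt_exp_smul' A (-t) i j)
    have h2 : HasDerivAt (fun s : ℝ => -s) (-1) t := hasDerivAt_neg' t
    have h3 : HasDerivAt (fun s : ℝ => exp ((-s) • A) i j)
        ((exp ((-t) • A) * A) i j * (-1)) t := h1.comp t h2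
    convert h3 using 1
    ring
  have hF : ∀ t i j, HasDerivAt (fun s : ℝ => (exp ((-s) • A) * K s) i j) 0 t := by
    intro t i j
    have h1 : HasDerivAt (fun s : ℝ => ∑ k, exp ((-s) • A) i k * K s k j)
        (∑ k, (-(exp ((-t) • A) * A) i k * K t k j + exp ((-t) • A) i k * (A * K t) k j)) t := by
      apply HasDerivAt.fun_sum
      intro k _
      exact (hneg t i k).mul (hK t k j)
    have h2 : (∑ k, (-(exp ((-t) • A) * A) i k * K t k j + exp ((-t) • A) i k * (A * K t) k j))
        = 0 := by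
      rw [Finset.sum_add_distrib]
      have e1 : ∑ k, -(exp ((-t) • A) * A) i k * K t k j = -((exp ((-t) • A) * A) * K t) i j := by
        rw [Matrix.mul_apply, ← Finset.sum_neg_distrib]
        apply Finset.sum_congr rfl; intro k _; ring
      have e2 : ∑ k, exp ((-t) • A) i k * (A * K t) k j = (exp ((-t) • A) * (A * K t)) i j := by
        rw [Matrix.mul_apply]
      rw [e1, e2, Matrix.mul_assoc]; ring
    rw [h2] at h1
    have h3 : (fun s : ℝ => (exp ((-s) • A) * K s) i j)
        = (fun s : ℝ => ∑ k, exp ((-s) • A) i k * K s k j) := by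
      funext s; rw [Matrix.mul_apply]
    rw [h3]; exact h1
  have hconst : ∀ i j, (exp ((-t) • A) * K t) i j = (exp ((-(0:ℝ)) • A) * K 0) i j := by
    intro i j
    exact is_const_of_deriv_eq_zero (f := fun s : ℝ => (exp ((-s) • A) * K s) i j)
      (fun s => (hF s i j).differentiableAt) (fun s => (hF s i j).deriv) t 0
  have h1 : exp ((-t) • A) * K t = 1 := by
    ext i j
    rw [hconst i j, h0]; simp
  calc K t = (exp (t • A) * exp ((-t) • A)) * K t := by rw [exp_neg_mul_exp]; simp
    _ = exp (t • A) * (exp ((-t) • A) * K t) := by rw [Matrix.mul_assoc]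
    _ = exp (t • A) := by rw [h1]; simp

end Pool.Agent.W_MP_6c8c83_pr
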