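import Pool.Agent.W_MP_6c8c83_pr.Chain

/-!
The environment chain: independent coordinates in `Bool`, each refreshed at rate `μ` from the
Bernoulli(`p`) law.
-/

set_option linter.unusedSectionVars false

namespace Pool.Agent.W_MP_6c8c83_pr

open scoped BigOperators Matrix
open NormedSpace (exp)

/-- Bernoulli weights. -/
noncomputable def bern (p : ℝ) (b : Bool) : ℝ := if b then p else 1 - p

lemma bern_sum (p : ℝ) : ∑ b, bern p b = 1 := by
  simp [bern]

lemma bern_pos {p : ℝ} (h0 : 0 < p) (h1 : p < 1) (b : Bool) : 0 < bern p b := by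
  unfold bern; split_ifs <;> linarith

variable {E : Type*} [Fintype E] [DecidableEq E]

/-- product Bernoulli weights -/
noncomputable def envW (p : ℝ) (η : E → Bool) : ℝ := ∏ e, bern p (η e)

omit [DecidableEq E] in
lemma envW_pos {p : ℝ} (h0 : 0 < p) (h1 : p < 1) (η : E → Bool) : 0 < envW p η :=
  Finset.prod_pos (fun _ _ => bern_pos h0 h1 _)

lemma envW_sum (p : ℝ) : ∑ η : E → Bool, envW p η = 1 := by
  unfold envW
  have h := Finset.prod_univ_sum (fun _ : E => (Finset.univ : Finset Bool)) (fun _ b => bern p b)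
  simp only [bern_sum, Finset.prod_const_one, Fintype.piFinset_univ] at h
  exact h.symm

lemma envW_update (p : ℝ) (η : E → Bool) (e : E) (b : Bool) :
    envW p (Function.update η e b) * bern p (η e) = envW p η * bern p b := by
  unfold envW
  rw [← Finset.mul_prod_erase Finset.univ _ (Finset.mem_univ e),
    ← Finset.mul_prod_erase Finset.univ (fun i => bern p (η i)) (Finset.mem_univ e)]
  rw [Function.update_self]
  have h1 : ∏ x ∈ Finset.univ.erase e, bern p (Function.update η e b x)
      = ∏ x ∈ Finset.univ.erase e, bern p (η x) := by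
    apply Finset.prod_congr rfl
    intro x hx
    rw [Function.update_of_ne (Finset.ne_of_mem_erase hx)]
  rw [h1]; ring

/-- resampling operator at coordinate `e` -/
noncomputable def rs (p : ℝ) (e : E) (f : (E → Bool) → ℝ) (η : E → Bool) : ℝ :=
  ∑ b, bern p b * f (Function.update η e b)

/-- inner product -/
noncomputable def ip (p : ℝ) (f g : (E → Bool) → ℝ) : ℝ := ∑ η, envW p η * (f η * g η)

/-- Change of variables: averaging over one coordinate. -/
lemma sum_rs (p : ℝ) (e : E) (f : (E → Bool) → ℝ) :
    ∑ η, envW p η * rs p e f η = ∑ η, envW p η * f η := by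
  -- pair each configuration with its flip at `e`
  have key : ∀ F : (E → Bool) → ℝ, ∑ η, F η = ∑ η, F (Function.update η e (!(η e))) := by
    intro F
    apply Fintype.sum_bijective (fun η : E → Bool => Function.update η e (!(η e)))
    · apply Function.Involutive.bijective
      intro η
      simp
    · intro η
      simp
  have h1 : ∀ η : E → Bool, rs p e f η
      = bern p (η e) * f η + bern p (!(η e)) * f (Function.update η e (!(η e))) := by
    intro η
    unfold rs
    rw [Fintype.sum_bool]
    cases h : η e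
    · have : Function.update η e false = η := by rw [← h]; exact Function.update_eq_self e η
      rw [this]; simp; ring
    · have : Function.update η e true = η := by rw [← h]; exact Function.update_eq_self e η
      rw [this]; simp
  have h2 : ∀ η : E → Bool, envW p η * (bern p (!(η e)) * f (Function.update η e (!(η e))))
      = (fun ζ => envW p ζ * (bern p (!(ζ e)) * f ζ)) (Function.update η e (!(η e))) := by
    intro η
    simp only [Function.update_self, Bool.not_not]
    have := envW_update p η e (!(η e))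
    linear_combination (-f (Function.update η e (!(η e)))) * this
  have h3 : ∑ η, envW p η * rs p e f η
      = ∑ η, envW p η * (bern p (η e) * f η) + ∑ η, envW p η * (bern p (!(η e)) * f η) := by
    rw [key (fun ζ => envW p ζ * (bern p (!(ζ e)) * f ζ))]
    rw [← Finset.sum_add_distrib]
    apply Finset.sum_congr rfl
    intro η _
    rw [h1, mul_add, h2]
  rw [h3, ← Finset.sum_add_distrib]
  apply Finset.sum_congr rfl
  intro η _
  have h4 : bern p (η e) + bern p (!(η e)) = 1 := by
    cases η e <;> simp [bern]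
  linear_combination (envW p η * f η) * h4

lemma rs_mul_rs (p : ℝ) (e : E) (f g : (E → Bool) → ℝ) (η : E → Bool) :
    rs p e (fun ζ => f ζ * rs p e g ζ) η = rs p e f η * rs p e g η := by
  unfold rs
  simp only [Function.update_idem]
  rw [Finset.sum_mul]
  apply Finset.sum_congr rfl
  intro b _
  ring

/-- `⟨f, E_e g⟩ = ⟨E_e f, E_e g⟩`. -/
lemma ip_rs (p : ℝ) (e : E) (f g : (E → Bool) → ℝ) :
    ip p f (rs p e g) = ip p (rs p e f) (rs p e g) := by
  unfold ip
  rw [← sum_rs p e (fun ζ => f ζ * rs p e g ζ)]
  apply Finset.sum_congr rfl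
  intro η _
  rw [rs_mul_rs]

lemma ip_comm (p : ℝ) (f g : (E → Bool) → ℝ) : ip p f g = ip p g f := by
  unfold ip
  apply Finset.sum_congr rfl
  intro η _; ring

lemma ip_nonneg {p : ℝ} (h0 : 0 < p) (h1 : p < 1) (f : (E → Bool) → ℝ) : 0 ≤ ip p f f :=
  Finset.sum_nonneg (fun η _ => mul_nonneg (envW_pos h0 h1 η).le (mul_self_nonneg _))

lemma ip_sub_sub (p : ℝ) (f g : (E → Bool) → ℝ) :
    ip p (fun η => f η - g η) (fun η => f η - g η) = ip p f f - 2 * ip p f g + ip p g g := by
  unfold ip
  rw [Finset.mul_sum, ← Finset.sum_sub_distrib, ← Finset.sum_add_distrib]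
  apply Finset.sum_congr rfl
  intro η _; ring

/-- `‖f - E_e f‖² = ‖f‖² - ‖E_e f‖²`. -/
lemma ip_proj (p : ℝ) (e : E) (f : (E → Bool) → ℝ) :
    ip p (fun η => f η - rs p e f η) (fun η => f η - rs p e f η)
      = ip p f f - ip p (rs p e f) (rs p e f) := by
  rw [ip_sub_sub, ip_rs]; ring

lemma rs_comm (p : ℝ) (e e' : E) (f : (E → Bool) → ℝ) :
    rs p e (rs p e' f) = rs p e' (rs p e f) := by
  by_cases h : e = e'
  · rw [h]
  · funext η
    unfold rs
    simp_rw [Finset.mul_sum]
    rw [Finset.sum_comm]
    apply Finset.sum_congr rfl; intro b _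
    apply Finset.sum_congr rfl; intro b' _
    rw [Function.update_comm h]
    ring

lemma rs_sub (p : ℝ) (e : E) (f g : (E → Bool) → ℝ) :
    rs p e (fun η => f η - g η) = fun η => rs p e f η - rs p e g η := by
  funext η
  unfold rs
  rw [← Finset.sum_sub_distrib]
  apply Finset.sum_congr rfl; intro b _; ring

/-- iterated resampling along a list -/
noncomputable def rsL (p : ℝ) (l : List E) (f : (E → Bool) → ℝ) : (E → Bool) → ℝ :=
  l.foldr (fun e g => rs p e g) f

lemma rsL_cons (p : ℝ) (e : E) (l : List E) (f : (E → Bool) → ℝ) :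
    rsL p (e :: l) f = rs p e (rsL p l f) := rfl

lemma rsL_rs (p : ℝ) (e : E) (l : List E) (f : (E → Bool) → ℝ) :
    rsL p l (rs p e f) = rs p e (rsL p l f) := by
  induction l with
  | nil => rfl
  | cons a l ih => rw [rsL_cons, rsL_cons, ih, rs_comm]

lemma rsL_sub (p : ℝ) (l : List E) (f g : (E → Bool) → ℝ) :
    rsL p l (fun η => f η - g η) = fun η => rsL p l f η - rsL p l g η := by
  induction l with
  | nil => rfl
  | cons a l ih => rw [rsL_cons, rsL_cons, rsL_cons, ih, rs_sub]

lemma ip_rs_le {p : ℝ} (h0 : 0 < p) (h1 : p < 1) (e : E) (f : (E → Bool) → ℝ) :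
    ip p (rs p e f) (rs p e f) ≤ ip p f f := by
  have h2 := ip_proj p e f
  have h3 := ip_nonneg h0 h1 (fun η => f η - rs p e f η)
  linarith

lemma ip_rsL_le {p : ℝ} (h0 : 0 < p) (h1 : p < 1) (l : List E) (f : (E → Bool) → ℝ) :
    ip p (rsL p l f) (rsL p l f) ≤ ip p f f := by
  induction l with
  | nil => exact le_refl _
  | cons a l ih => rw [rsL_cons]; exact (ip_rs_le h0 h1 a _).trans ih

lemma efron_stein_list {p : ℝ} (h0 : 0 < p) (h1 : p < 1) (l : List E) (f : (E → Bool) → ℝ) :
    ip p f f - ip p (rsL p l f) (rsL p l f)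
      ≤ (l.map (fun e => ip p f f - ip p (rs p e f) (rs p e f))).sum := by
  induction l with
  | nil => simp [rsL]
  | cons a l ih =>
    rw [List.map_cons, List.sum_cons, rsL_cons]
    have h2 : ip p (rsL p l f) (rsL p l f) - ip p (rs p a (rsL p l f)) (rs p a (rsL p l f))
        ≤ ip p f f - ip p (rs p a f) (rs p a f) := by
      rw [← ip_proj, ← ip_proj, ← rsL_rs, ← rsL_sub]
      exact ip_rsL_le h0 h1 l _
    linarith

lemma rs_update (p : ℝ) (e : E) (f : (E → Bool) → ℝ) (η : E → Bool) (b : Bool) :
    rs p e f (Function.update η e b) = rs p e f η := by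
  unfold rs; simp only [Function.update_idem]

lemma rsL_update (p : ℝ) (l : List E) (f : (E → Bool) → ℝ) (e : E) (he : e ∈ l)
    (η : E → Bool) (b : Bool) :
    rsL p l f (Function.update η e b) = rsL p l f η := by
  induction l generalizing η with
  | nil => simp at he
  | cons a l ih =>
    rw [rsL_cons]
    by_cases hae : a = e
    · rw [hae, rs_update]
    · have he' : e ∈ l := by
        rcases List.mem_cons.mp he with h | h
        · exact absurd h.symm hae
        · exact h
      unfold rs
      apply Finset.sum_congr rfl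
      intro b' _
      rw [Function.update_comm (Ne.symm hae), ih he']

lemma rsL_const (p : ℝ) (l : List E) (hl : ∀ e, e ∈ l) (f : (E → Bool) → ℝ)
    (η ζ : E → Bool) : rsL p l f η = rsL p l f ζ := by
  -- update `η` to `ζ` along the list
  have h1 : ∀ l' : List E, rsL p l f (l'.foldr (fun e ξ => Function.update ξ e (ζ e)) η)
      = rsL p l f η := by
    intro l'
    induction l' with
    | nil => rfl
    | cons a l' ih => rw [List.foldr_cons, rsL_update p l f a (hl a), ih]
  have h2 : ∀ l' : List E, ∀ e ∈ l', (l'.foldr (fun e ξ => Function.update ξ e (ζ e)) η) e = ζ e := by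
    intro l'
    induction l' with
    | nil => intro e he; simp at he
    | cons a l' ih =>
      intro e he
      rw [List.foldr_cons]
      by_cases hae : e = a
      · rw [hae, Function.update_self]
      · rw [Function.update_of_ne hae]
        rcases List.mem_cons.mp he with h | h
        · exact absurd h hae
        · exact ih e h
  have h3 : (l.foldr (fun e ξ => Function.update ξ e (ζ e)) η) = ζ := by
    funext e; exact h2 l e (hl e)
  have h4 := h1 l
  rw [h3] at h4
  exact h4.symm

lemma rsL_mean (p : ℝ) (l : List E) (f : (E → Bool) → ℝ) :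
    ∑ η, envW p η * rsL p l f η = ∑ η, envW p η * f η := by
  induction l with
  | nil => rfl
  | cons a l ih => rw [rsL_cons, sum_rs, ih]

/-- **Efron-Stein inequality** for the product Bernoulli measure. -/
lemma efron_stein {p : ℝ} (h0 : 0 < p) (h1 : p < 1) (f : (E → Bool) → ℝ) :
    ip p f f - (∑ η, envW p η * f η) ^ 2
      ≤ ∑ e, (ip p f f - ip p (rs p e f) (rs p e f)) := by
  set l := (Finset.univ : Finset E).toList with hl
  have hmem : ∀ e, e ∈ l := fun e => by rw [hl]; simp
  have h2 := efron_stein_list h0 h1 l f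
  have h3 : (l.map (fun e => ip p f f - ip p (rs p e f) (rs p e f))).sum
      = ∑ e, (ip p f f - ip p (rs p e f) (rs p e f)) := by
    rw [hl, Finset.sum_map_toList]
  have hc : ∀ η, rsL p l f η = ∑ ζ, envW p ζ * f ζ := by
    intro η
    have h5 : ∑ ζ, envW p ζ * rsL p l f ζ = rsL p l f η := by
      have : ∀ ζ, envW p ζ * rsL p l f ζ = envW p ζ * rsL p l f η := by
        intro ζ; rw [rsL_const p l hmem f ζ η]
      simp_rw [this]
      rw [← Finset.sum_mul, envW_sum, one_mul]
    rw [← h5, rsL_mean]
  have h4 : ip p (rsL p l f) (rsL p l f) = (∑ η, envW p η * f η) ^ 2 := by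
    unfold ip
    simp_rw [hc]
    rw [← Finset.sum_mul, envW_sum]; ring
  rw [h3, h4] at h2
  exact h2

/-! ### The environment semigroup -/

/-- generator of the environment chain -/
noncomputable def envGen (μ p : ℝ) : Matrix (E → Bool) (E → Bool) ℝ :=
  Matrix.of fun η ζ => ∑ e : E, μ * ((∑ b : Bool, if ζ = Function.update η e b then bern p b else 0)
    - if ζ = η then 1 else 0)

lemma envGen_sum (μ p : ℝ) (f : (E → Bool) → ℝ) (η : E → Bool) :
    ∑ ζ, envGen μ p η ζ * f ζ = ∑ e : E, μ * (rs p e f η - f η) := by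
  unfold envGen
  simp only [Matrix.of_apply, Finset.sum_mul]
  rw [Finset.sum_comm]
  apply Finset.sum_congr rfl
  intro e _
  have h1 : ∀ ζ : E → Bool, μ * ((∑ b : Bool, if ζ = Function.update η e b then bern p b else 0)
      - if ζ = η then 1 else 0) * f ζ
      = μ * ((∑ b : Bool, if ζ = Function.update η e b then bern p b * f ζ else 0)
        - if ζ = η then f ζ else 0) := by
    intro ζ
    rw [mul_assoc, sub_mul, Finset.sum_mul]
    simp only [ite_mul, zero_mul, one_mul]
  simp_rw [h1]
  rw [← Finset.mul_sum, Finset.sum_sub_distrib, Finset.sum_comm]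
  simp only [Finset.sum_ite_eq', Finset.mem_univ, if_true]
  rfl

/-- one-coordinate kernel -/
noncomputable def k1 (μ p t : ℝ) (a b : Bool) : ℝ :=
  Real.exp (-(μ * t)) * (if a = b then 1 else 0) + (1 - Real.exp (-(μ * t))) * bern p b

lemma k1_deriv (μ p t : ℝ) (a b : Bool) :
    HasDerivAt (fun s => k1 μ p s a b) (μ * (bern p b - k1 μ p t a b)) t := by
  have h1 : HasDerivAt (fun s : ℝ => Real.exp (-(μ * s))) (Real.exp (-(μ * t)) * (-(μ * 1))) t := by
    have := (((hasDerivAt_id t).const_mul μ).fun_neg).exp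
    simpa using this
  unfold k1
  have h2 := (h1.mul_const (if a = b then (1 : ℝ) else 0)).add
    ((h1.const_sub 1).mul_const (bern p b))
  refine h2.congr_deriv ?_
  ring

lemma k1_avg (μ p t : ℝ) (b : Bool) : ∑ c, bern p c * k1 μ p t c b = bern p b := by
  unfold k1
  rw [Fintype.sum_bool]
  cases b <;> simp [bern] <;> ring

/-- product kernel -/
noncomputable def kE (μ p t : ℝ) : Matrix (E → Bool) (E → Bool) ℝ :=
  Matrix.of fun η ζ => ∏ e, k1 μ p t (η e) (ζ e)

lemma kE_eq_exp (μ p t : ℝ) : (kE μ p t : Matrix (E → Bool) (E → Bool) ℝ)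
    = exp (t • (envGen μ p : Matrix (E → Bool) (E → Bool) ℝ)) := by
  apply eq_exp_of_hasDerivAt (envGen μ p) (fun t => kE μ p t)
  · intro t η ζ
    have h1 : HasDerivAt (fun s => ∏ e, k1 μ p s (η e) (ζ e))
        (∑ e, (∏ e' ∈ Finset.univ.erase e, k1 μ p t (η e') (ζ e')) •
          (μ * (bern p (ζ e) - k1 μ p t (η e) (ζ e)))) t :=
      HasDerivAt.fun_finsetProd (fun e _ => k1_deriv μ p t (η e) (ζ e))
    have h2 : (∑ e, (∏ e' ∈ Finset.univ.erase e, k1 μ p t (η e') (ζ e')) •
          (μ * (bern p (ζ e) - k1 μ p t (η e) (ζ e))))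
        = ((envGen μ p * kE μ p t : Matrix (E → Bool) (E → Bool) ℝ)) η ζ := by
      rw [Matrix.mul_apply, envGen_sum μ p (fun ξ => kE μ p t ξ ζ) η]
      apply Finset.sum_congr rfl
      intro e _
      have h3 : (kE μ p t : Matrix (E → Bool) (E → Bool) ℝ) η ζ
          = k1 μ p t (η e) (ζ e) * ∏ e' ∈ Finset.univ.erase e, k1 μ p t (η e') (ζ e') := by
        unfold kE
        simp only [Matrix.of_apply]
        rw [← Finset.mul_prod_erase Finset.univ _ (Finset.mem_univ e)]
      have h4 : rs p e (fun ξ => (kE μ p t : Matrix (E → Bool) (E → Bool) ℝ) ξ ζ) η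
          = bern p (ζ e) * ∏ e' ∈ Finset.univ.erase e, k1 μ p t (η e') (ζ e') := by
        unfold rs
        have h5 : ∀ b, (kE μ p t : Matrix (E → Bool) (E → Bool) ℝ) (Function.update η e b) ζ
            = k1 μ p t b (ζ e) * ∏ e' ∈ Finset.univ.erase e, k1 μ p t (η e') (ζ e') := by
          intro b
          unfold kE
          simp only [Matrix.of_apply]
          rw [← Finset.mul_prod_erase Finset.univ _ (Finset.mem_univ e), Function.update_self]
          congr 1
          apply Finset.prod_congr rfl
          intro e' he'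
          rw [Function.update_of_ne (Finset.ne_of_mem_erase he')]
        simp_rw [h5, ← mul_assoc]
        rw [← Finset.sum_mul, k1_avg]
      rw [h4, h3, smul_eq_mul]; ring
    rw [h2] at h1
    exact h1
  · ext η ζ
    unfold kE k1
    simp only [Matrix.of_apply, mul_zero, neg_zero, Real.exp_zero, one_mul, sub_self, zero_mul,
      add_zero]
    rw [Matrix.one_apply]
    by_cases h : η = ζ
    · simp [h]
    · rw [if_neg h]
      have : ∃ e, η e ≠ ζ e := by
        by_contra hcon
        push Not at hcon
        exact h (funext hcon)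
      obtain ⟨e, he⟩ := this
      exact Finset.prod_eq_zero (Finset.mem_univ e) (by rw [if_neg he])

lemma trace_env (μ p t : ℝ) :
    (exp (t • (envGen μ p : Matrix (E → Bool) (E → Bool) ℝ))).trace
      = (1 + Real.exp (-(μ * t))) ^ Fintype.card E := by
  rw [← kE_eq_exp]
  unfold Matrix.trace kE
  simp only [Matrix.diag_apply, Matrix.of_apply]
  have h := Finset.prod_univ_sum (fun _ : E => (Finset.univ : Finset Bool))
    (fun _ b => k1 μ p t b b)
  rw [Fintype.piFinset_univ] at h
  rw [← h, Finset.prod_const, Finset.card_univ]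
  congr 1
  rw [Fintype.sum_bool]
  unfold k1 bern
  simp
  ring

/-- Pointwise bound on the density of the environment chain. -/
lemma env_le {μ p t c : ℝ} (hμt : 0 ≤ μ * t) (h0 : 0 < p) (h1 : p < 1) (hc0 : 0 < c) (hc : c ≤ p) (hc' : c ≤ 1 - p)
    (η ζ : E → Bool) :
    exp (t • (envGen μ p : Matrix (E → Bool) (E → Bool) ℝ)) η ζ
      ≤ (1 + Real.exp (-(μ * t)) / c) ^ Fintype.card E * envW p ζ := by
  rw [← kE_eq_exp]
  unfold kE envW
  simp only [Matrix.of_apply]
  rw [← Finset.card_univ, ← Finset.prod_const, ← Finset.prod_mul_distrib]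
  have hk : ∀ a b, k1 μ p t a b ≤ (1 + Real.exp (-(μ * t)) / c) * bern p b := by
    intro a b
    have hb : c ≤ bern p b := by unfold bern; split_ifs <;> assumption
    have hbp := bern_pos h0 h1 b
    have he := Real.exp_pos (-(μ * t))
    unfold k1
    have h2 : Real.exp (-(μ * t)) * (if a = b then (1 : ℝ) else 0)
        ≤ Real.exp (-(μ * t)) / c * bern p b := by
      have h3 : (if a = b then (1 : ℝ) else 0) ≤ 1 := by split_ifs <;> norm_num
      calc Real.exp (-(μ * t)) * (if a = b then (1 : ℝ) else 0) ≤ Real.exp (-(μ * t)) * 1 :=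
            mul_le_mul_of_nonneg_left h3 he.le
        _ ≤ Real.exp (-(μ * t)) * (bern p b / c) := by
            apply mul_le_mul_of_nonneg_left _ he.le
            rw [le_div_iff₀ hc0]; linarith
        _ = Real.exp (-(μ * t)) / c * bern p b := by ring
    have h4 : 0 ≤ Real.exp (-(μ * t)) * bern p b := by positivity
    calc Real.exp (-(μ * t)) * (if a = b then (1 : ℝ) else 0)
          + (1 - Real.exp (-(μ * t))) * bern p b
        ≤ Real.exp (-(μ * t)) / c * bern p b + (1 - Real.exp (-(μ * t))) * bern p b := by linarith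
      _ ≤ (1 + Real.exp (-(μ * t)) / c) * bern p b := by linarith
  have hk0 : ∀ e, 0 ≤ k1 μ p t (η e) (ζ e) := by
    intro e
    unfold k1
    have he := Real.exp_pos (-(μ * t))
    have he1 : Real.exp (-(μ * t)) ≤ 1 := by
      rw [← Real.exp_zero]; exact Real.exp_le_exp.mpr (by linarith)
    have h2 : (0 : ℝ) ≤ (if η e = ζ e then 1 else 0) := by split_ifs <;> norm_num
    have h3 := mul_nonneg he.le h2
    have h4 := mul_nonneg (sub_nonneg.mpr he1) (bern_pos h0 h1 (ζ e)).le
    linarith
  exact Finset.prod_le_prod (fun e _ => hk0 e) (fun e _ => hk _ _)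

end Pool.Agent.W_MP_6c8c83_pr
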