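import Pool.Agent.W_MP_6c8c83_pr.Sym

/-!
Facts on simple random walk on a connected regular graph: the `L^∞` mixing time is attained,
is at least `log (4n/5)`, and controls the trace of the heat semigroup.
-/

set_option linter.unusedSectionVars false

namespace Pool.Agent.W_MP_6c8c83_pr

open scoped BigOperators Matrix
open NormedSpace (exp)

variable {V : Type*} [Fintype V] [DecidableEq V] (G : SimpleGraph V) [DecidableRel G.Adj]

lemma srwRate_nonneg (d : ℕ) (x y : V) : 0 ≤ srwRate G d x y := by
  unfold srwRate; split_ifs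
  · positivity
  · exact le_refl _

lemma srwRate_row {d : ℕ} (hd : 1 ≤ d) (hreg : G.IsRegularOfDegree d) (x : V) :
    ∑ y, srwRate G d x y = 1 := by
  unfold srwRate
  rw [← Finset.sum_filter, Finset.sum_const, nsmul_eq_mul]
  have h1 : (Finset.univ.filter (fun y => G.Adj x y)).card = d := by
    rw [← hreg x, ← SimpleGraph.card_neighborFinset_eq_degree]
    congr 1
    ext y; simp
  rw [h1]
  have : (d : ℝ) ≠ 0 := by
    have : (1 : ℝ) ≤ d := by exact_mod_cast hd
    positivity
  field_simp

lemma pow_pos_of_walk {d : ℕ} (hd : 1 ≤ d) {x y : V} (w : G.Walk x y) :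
    0 < ((srwRate G d) ^ w.length) x y := by
  induction w with
  | nil => simp
  | @cons a b c hab w ih =>
    rw [SimpleGraph.Walk.length_cons, pow_succ', Matrix.mul_apply]
    have h1 : 0 < srwRate G d a b * ((srwRate G d) ^ w.length) b c := by
      apply mul_pos _ ih
      unfold srwRate
      rw [if_pos hab]
      have : (1 : ℝ) ≤ d := by exact_mod_cast hd
      positivity
    have h2 := Finset.single_le_sum (f := fun v => srwRate G d a v * ((srwRate G d) ^ w.length) v c)
      (fun v _ => mul_nonneg (srwRate_nonneg G d a v)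
        (pow_nonneg_of_nonneg _ (srwRate_nonneg G d) _ v c)) (Finset.mem_univ b)
    exact lt_of_lt_of_le h1 h2

lemma kernel_one_pos {d : ℕ} (hd : 1 ≤ d) (hreg : G.IsRegularOfDegree d) (hc : G.Connected)
    (x y : V) : 0 < exp ((1 : ℝ) • generator (srwRate G d)) x y := by
  obtain ⟨w⟩ := hc.preconnected x y
  have h1 := kernel_ge (srwRate G d) (srwRate_nonneg G d) (srwRate_row G hd hreg) 1 zero_le_one
    x y w.length
  refine lt_of_lt_of_le ?_ h1
  have h2 := pow_pos_of_walk G hd w
  have h3 : (0 : ℝ) < w.length.factorial := by exact_mod_cast Nat.factorial_pos _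
  have h4 := Real.exp_pos (-1 : ℝ)
  rw [one_pow, one_mul]
  positivity

/-- The set of times at which the chain is `1/4`-mixed in `L^∞`. -/
def mixedSet {S : Type*} [Fintype S] [DecidableEq S] (R : Matrix S S ℝ) (π : S → ℝ) : Set ℝ :=
  {t : ℝ | 0 ≤ t ∧ ∀ z w, |kernel R t z w / π w - 1| ≤ 1 / 4}

lemma mixedSet_closed {S : Type*} [Fintype S] [DecidableEq S] (R : Matrix S S ℝ) (π : S → ℝ) :
    IsClosed (mixedSet R π) := by
  have h1 : mixedSet R π = Set.Ici 0 ∩ ⋂ z, ⋂ w, {t : ℝ | |kernel R t z w / π w - 1| ≤ 1 / 4} := by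
    ext t
    simp [mixedSet]
  rw [h1]
  apply isClosed_Ici.inter
  apply isClosed_iInter; intro z
  apply isClosed_iInter; intro w
  apply isClosed_le _ continuous_const
  apply Continuous.abs
  apply Continuous.sub _ continuous_const
  apply Continuous.div_const
  have h2 : ∀ t, HasDerivAt (fun s : ℝ => kernel R s z w) _ t :=
    fun t => hasDerivAt_exp_smul (generator R) t z w
  exact continuous_iff_continuousAt.mpr (fun t => (h2 t).continuousAt)

lemma mixedSet_upward {S : Type*} [Fintype S] [DecidableEq S] (R : Matrix S S ℝ)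
    (hR : ∀ z w, 0 ≤ R z w) (π : S → ℝ) (t s : ℝ)
    (ht : t ∈ mixedSet R π) (hs : t ≤ s) : s ∈ mixedSet R π := by
  refine ⟨ht.1.trans hs, ?_⟩
  intro z w
  set r := s - t with hr
  have hr0 : 0 ≤ r := sub_nonneg.mpr hs
  have hrow : ∑ v, exp (r • generator R) z v = 1 := exp_row_sum _ (generator_row R) r z
  have h1 : kernel R s z w / π w - 1
      = ∑ v, exp (r • generator R) z v * (kernel R t v w / π w - 1) := by
    have h2 : kernel R s z w = ∑ v, exp (r • generator R) z v * kernel R t v w := by
      unfold kernel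
      rw [← Matrix.mul_apply, ← exp_smul_add]
      rw [hr]; ring_nf
    rw [h2]
    simp_rw [mul_sub, mul_one]
    rw [Finset.sum_sub_distrib, hrow, Finset.sum_div]
    congr 1
    apply Finset.sum_congr rfl; intro v _; ring
  rw [h1]
  calc |∑ v, exp (r • generator R) z v * (kernel R t v w / π w - 1)|
      ≤ ∑ v, |exp (r • generator R) z v * (kernel R t v w / π w - 1)| :=
        Finset.abs_sum_le_sum_abs _ _
    _ ≤ ∑ v, exp (r • generator R) z v * (1 / 4) := by
        apply Finset.sum_le_sum; intro v _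
        rw [abs_mul, abs_of_nonneg (kernel_nonneg R hR r hr0 z v)]
        exact mul_le_mul_of_nonneg_left (ht.2 v w) (kernel_nonneg R hR r hr0 z v)
    _ = 1 / 4 := by rw [← Finset.sum_mul, hrow, one_mul]

/-- SRW on a connected regular graph mixes. -/
lemma srw_mixed_nonempty {d : ℕ} (hd : 1 ≤ d) (hreg : G.IsRegularOfDegree d)
    (hc : G.Connected) : (mixedSet (srwRate G d) (uniformLaw V)).Nonempty := by
  have : Nonempty V := hc.nonempty
  set Q := generator (srwRate G d) with hQ
  set P : Matrix V V ℝ := exp ((1 : ℝ) • Q) with hP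
  have hn : (0 : ℝ) < Fintype.card V := by exact_mod_cast Fintype.card_pos
  -- lower bound on entries
  obtain ⟨⟨x0, y0⟩, -, hmin⟩ := Finset.exists_min_image (Finset.univ : Finset (V × V))
    (fun q => P q.1 q.2) Finset.univ_nonempty
  set a := P x0 y0 with ha
  have ha0 : 0 < a := kernel_one_pos G hd hreg hc x0 y0
  have hmin' : ∀ x y, a ≤ P x y := fun x y => hmin (x, y) (Finset.mem_univ _)
  have hrow : ∀ x, ∑ y, P x y = 1 := fun x => exp_row_sum _ (generator_row _) 1 x
  have hsymm : ∀ x y, P x y = P y x := by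
    intro x y
    have h := exp_rev Q (fun _ => 1) (by intro z w; rw [one_mul, one_mul]; exact srwGen_symm G d z w)
      1 x y
    rw [one_mul, one_mul] at h
    exact h
  have hna : (Fintype.card V : ℝ) * a ≤ 1 := by
    rw [← hrow x0]
    calc (Fintype.card V : ℝ) * a = ∑ _y : V, a := by simp
      _ ≤ ∑ y, P x0 y := Finset.sum_le_sum (fun y _ => hmin' x0 y)
  set ρ : ℝ := 1 - Fintype.card V * a with hρ
  have hρ0 : 0 ≤ ρ := by linarith
  have hρ1 : ρ < 1 := by
    have : 0 < (Fintype.card V : ℝ) * a := by positivity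
    linarith
  -- contraction
  have hstep : ∀ (f : V → ℝ) (B : ℝ), (∑ x, f x = 0) → (∀ x, |f x| ≤ B) →
      (∑ x, (P *ᵥ f) x = 0) ∧ ∀ x, |(P *ᵥ f) x| ≤ ρ * B := by
    intro f B hf hB
    refine ⟨?_, ?_⟩
    · simp only [Matrix.mulVec, dotProduct]
      rw [Finset.sum_comm]
      rw [← hf]
      apply Finset.sum_congr rfl; intro y _
      rw [← Finset.sum_mul]
      have : ∑ x, P x y = 1 := by
        rw [← hrow y]; apply Finset.sum_congr rfl; intro x _; rw [hsymm]
      rw [this, one_mul]
    · intro x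
      simp only [Matrix.mulVec, dotProduct]
      have h1 : ∑ y, P x y * f y = ∑ y, (P x y - a) * f y := by
        simp_rw [sub_mul]
        rw [Finset.sum_sub_distrib, ← Finset.mul_sum, hf, mul_zero, sub_zero]
      rw [h1]
      calc |∑ y, (P x y - a) * f y| ≤ ∑ y, |(P x y - a) * f y| := Finset.abs_sum_le_sum_abs _ _
        _ ≤ ∑ y, (P x y - a) * B := by
            apply Finset.sum_le_sum; intro y _
            rw [abs_mul, abs_of_nonneg (sub_nonneg.mpr (hmin' x y))]
            exact mul_le_mul_of_nonneg_left (hB y) (sub_nonneg.mpr (hmin' x y))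
        _ = ρ * B := by
            rw [← Finset.sum_mul, Finset.sum_sub_distrib, hrow]
            simp [hρ]
  have hiter : ∀ (k : ℕ) (f : V → ℝ) (B : ℝ), (∑ x, f x = 0) → (∀ x, |f x| ≤ B) →
      ∀ x, |((P ^ k) *ᵥ f) x| ≤ ρ ^ k * B := by
    intro k
    induction k with
    | zero => intro f B _ hB x; simpa using hB x
    | succ k ih =>
      intro f B hf hB x
      obtain ⟨h1, h2⟩ := hstep f B hf hB
      have h3 := ih (P *ᵥ f) (ρ * B) h1 h2 x
      rw [Matrix.mulVec_mulVec, ← pow_succ] at h3
      refine h3.trans (le_of_eq ?_)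
      ring
  obtain ⟨k, hk⟩ := exists_pow_lt_of_lt_one (show (0 : ℝ) < 1 / (4 * Fintype.card V) by positivity) hρ1
  refine ⟨k, by positivity, ?_⟩
  intro x y
  have hpow : kernel (srwRate G d) (k : ℝ) = P ^ k := by
    unfold kernel
    rw [hP, one_smul, ← Matrix.exp_nsmul, Nat.cast_smul_eq_nsmul]
  rw [hpow]
  set f : V → ℝ := fun v => (if v = y then (Fintype.card V : ℝ) else 0) - 1 with hf
  have hn1 : (1 : ℝ) ≤ Fintype.card V := by exact_mod_cast Fintype.card_pos
  have h1 : ∑ x, f x = 0 := by
    simp only [hf]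
    rw [Finset.sum_sub_distrib, Finset.sum_ite_eq', if_pos (Finset.mem_univ _)]
    simp
  have h2 : ∀ x, |f x| ≤ (Fintype.card V : ℝ) := by
    intro x
    simp only [hf]
    rw [abs_le]
    split_ifs <;> constructor <;> linarith
  have h3 := hiter k f _ h1 h2 x
  have hrowk : ∑ v, (P ^ k) x v = 1 := by
    rw [← hpow]; exact exp_row_sum _ (generator_row _) k x
  have h4 : ((P ^ k) *ᵥ f) x = (P ^ k) x y / uniformLaw V y - 1 := by
    simp only [Matrix.mulVec, dotProduct, hf, mul_sub, mul_one]
    rw [Finset.sum_sub_distrib, hrowk]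
    congr 1
    simp only [mul_ite, mul_zero]
    rw [Finset.sum_ite_eq', if_pos (Finset.mem_univ _)]
    unfold uniformLaw
    field_simp
  rw [h4] at h3
  refine h3.trans ?_
  have h5 : ρ ^ k * (Fintype.card V : ℝ) ≤ 1 / (4 * Fintype.card V) * (Fintype.card V : ℝ) :=
    mul_le_mul_of_nonneg_right hk.le hn.le
  refine h5.trans (le_of_eq ?_)
  field_simp

lemma srw_time_mem {d : ℕ} (hd : 1 ≤ d) (hreg : G.IsRegularOfDegree d) (hc : G.Connected) :
    mixingTimeInf (srwRate G d) (uniformLaw V) ∈ mixedSet (srwRate G d) (uniformLaw V) :=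
  (mixedSet_closed _ _).csInf_mem (srw_mixed_nonempty G hd hreg hc) ⟨0, fun _ ht => ht.1⟩

/-- Lower bound on the mixing time. -/
lemma srw_time_ge {d : ℕ} (hd : 1 ≤ d) (hreg : G.IsRegularOfDegree d) (hc : G.Connected) :
    Real.log (4 * Fintype.card V / 5) ≤ mixingTimeInf (srwRate G d) (uniformLaw V) := by
  have : Nonempty V := hc.nonempty
  set τ := mixingTimeInf (srwRate G d) (uniformLaw V) with hτ
  obtain ⟨h0, h1⟩ := srw_time_mem G hd hreg hc
  rw [← hτ] at h0 h1
  obtain ⟨x⟩ := hc.nonempty
  have hn : (0 : ℝ) < Fintype.card V := by exact_mod_cast Fintype.card_pos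
  have h2 := h1 x x
  have h3 := kernel_ge (srwRate G d) (srwRate_nonneg G d) (srwRate_row G hd hreg) τ h0 x x 0
  simp only [Nat.factorial_zero, Nat.cast_one, inv_one, pow_zero, Matrix.one_apply_eq, mul_one]
    at h3
  have h4 : kernel (srwRate G d) τ x x / uniformLaw V x - 1 ≤ 1 / 4 := (abs_le.mp h2).2
  have h5 : kernel (srwRate G d) τ x x / uniformLaw V x
      = Fintype.card V * kernel (srwRate G d) τ x x := by
    unfold uniformLaw; field_simp
  rw [h5] at h4
  have h6 : Real.exp (-τ) ≤ kernel (srwRate G d) τ x x := h3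
  have h7 : (Fintype.card V : ℝ) * Real.exp (-τ) ≤ 5 / 4 := by
    have := mul_le_mul_of_nonneg_left h6 hn.le
    linarith
  rw [Real.log_le_iff_le_exp (by positivity)]
  have h8 : Real.exp (-τ) * Real.exp τ = 1 := by rw [← Real.exp_add]; simp
  have h9 := Real.exp_pos τ
  have h10 : (Fintype.card V : ℝ) * Real.exp (-τ) * Real.exp τ ≤ 5 / 4 * Real.exp τ :=
    mul_le_mul_of_nonneg_right h7 h9.le
  rw [mul_assoc, h8, mul_one] at h10
  linarith

/-- Trace bound after the mixing time. -/
lemma srw_trace_le {d : ℕ} (hc : G.Connected) (t : ℝ)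
    (ht : t ∈ mixedSet (srwRate G d) (uniformLaw V)) :
    (exp ((t + t) • generator (srwRate G d))).trace ≤ 1 + 1 / 16 := by
  have : Nonempty V := hc.nonempty
  have hn : (0 : ℝ) < Fintype.card V := by exact_mod_cast Fintype.card_pos
  have hπ : ∀ z : V, 0 < uniformLaw V z := fun z => by unfold uniformLaw; positivity
  have hπ1 : ∑ z, uniformLaw V z = 1 := by
    unfold uniformLaw; simp
  have h1 := sum_cden_sq (Q := generator (srwRate G d)) (π := uniformLaw V) hπ hπ1
    (generator_row _) (by
      intro z w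
      unfold uniformLaw
      rw [srwGen_symm]) t
  have h2 : ∑ z, uniformLaw V z * ∑ w, uniformLaw V w *
      cden (generator (srwRate G d)) (uniformLaw V) t z w ^ 2 ≤ 1 / 16 := by
    have h3 : ∀ z w, cden (generator (srwRate G d)) (uniformLaw V) t z w ^ 2 ≤ 1 / 16 := by
      intro z w
      have h4 : |cden (generator (srwRate G d)) (uniformLaw V) t z w| ≤ 1 / 4 := ht.2 z w
      rw [← sq_abs]
      nlinarith [abs_nonneg (cden (generator (srwRate G d)) (uniformLaw V) t z w)]
    calc ∑ z, uniformLaw V z * ∑ w, uniformLaw V w *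
          cden (generator (srwRate G d)) (uniformLaw V) t z w ^ 2
        ≤ ∑ z, uniformLaw V z * ∑ w, uniformLaw V w * (1 / 16) := by
          apply Finset.sum_le_sum; intro z _
          apply mul_le_mul_of_nonneg_left _ (hπ z).le
          apply Finset.sum_le_sum; intro w _
          exact mul_le_mul_of_nonneg_left (h3 z w) (hπ w).le
      _ = 1 / 16 := by
          rw [← Finset.sum_mul, ← Finset.sum_mul, hπ1, one_mul, one_mul]
  linarith

end Pool.Agent.W_MP_6c8c83_pr
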