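import Pool.Agent.W_MP_6c8c83_pr.Compare

/-!
Automorphisms of the graph act on the full process; Poincare inequality for invariant functions;
marginal bound.
-/

set_option linter.unusedSectionVars false

namespace Pool.Agent.W_MP_6c8c83_pr

open scoped BigOperators Matrix
open NormedSpace (exp)

variable {V : Type*} [Fintype V] [DecidableEq V] (G : SimpleGraph V) [DecidableRel G.Adj]

/-- Symmetries of a chain. -/
def chainAut {S : Type*} (Q : Matrix S S ℝ) (π : S → ℝ) : Subgroup (Equiv.Perm S) where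
  carrier := {σ | (∀ z w, Q (σ z) (σ w) = Q z w) ∧ ∀ z, π (σ z) = π z}
  mul_mem' := by
    rintro a b ⟨ha1, ha2⟩ ⟨hb1, hb2⟩
    refine ⟨fun z w => ?_, fun z => ?_⟩
    · rw [Equiv.Perm.mul_apply, Equiv.Perm.mul_apply, ha1, hb1]
    · rw [Equiv.Perm.mul_apply, ha2, hb2]
  one_mem' := ⟨fun _ _ => rfl, fun _ => rfl⟩
  inv_mem' := by
    rintro a ⟨ha1, ha2⟩
    refine ⟨fun z w => ?_, fun z => ?_⟩
    · have := ha1 (a⁻¹ z) (a⁻¹ w)
      simpa using this.symm
    · have := ha2 (a⁻¹ z)
      simpa using this.symm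

/-- action of a graph automorphism on configurations -/
def autPerm {G : SimpleGraph V} (φ : G ≃g G) : Equiv.Perm (V × (G.edgeSet → Bool)) :=
  Equiv.prodCongr φ.toEquiv (Equiv.arrowCongr φ.mapEdgeSet (Equiv.refl Bool))

lemma autPerm_apply (φ : G ≃g G) (x : V) (η : G.edgeSet → Bool) :
    autPerm φ (x, η) = (φ x, fun e => η (φ.mapEdgeSet.symm e)) := rfl

lemma inc_aut (φ : G ≃g G) (x y : V) (e : G.edgeSet) :
    inc G (φ x) (φ y) (φ.mapEdgeSet e) = inc G x y e := by
  unfold inc
  have h : ((φ.mapEdgeSet e : G.edgeSet) : Sym2 V) = Sym2.map φ (e : Sym2 V) := rfl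
  have h2 : s(φ x, φ y) = Sym2.map φ s(x, y) := rfl
  rw [h, h2]
  have h3 : Sym2.map φ (e : Sym2 V) = Sym2.map φ s(x, y) ↔ (e : Sym2 V) = s(x, y) :=
    (Sym2.map.injective φ.injective).eq_iff
  by_cases h4 : (e : Sym2 V) = s(x, y)
  · rw [if_pos h4, if_pos (h3.mpr h4)]
  · rw [if_neg h4, if_neg (fun h5 => h4 (h3.mp h5))]

lemma dynRate_aut (d : ℕ) (μ p : ℝ) (φ : G ≃g G) (z w : V × (G.edgeSet → Bool)) :
    dynRate G d μ p (autPerm φ z) (autPerm φ w) = dynRate G d μ p z w := by
  obtain ⟨x, η⟩ := z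
  obtain ⟨y, ζ⟩ := w
  rw [autPerm_apply, autPerm_apply, dynRate_eq, dynRate_eq]
  congr 1
  · have h1 : ((fun e => ζ (φ.mapEdgeSet.symm e)) = fun e => η (φ.mapEdgeSet.symm e)) ↔ ζ = η := by
      constructor
      · intro h; funext e
        have := congrFun h (φ.mapEdgeSet e)
        simp only [Equiv.symm_apply_apply] at this
        exact this
      · intro h; rw [h]
    have h2 : ∑ e, inc G (φ x) (φ y) e * op G (fun e => η (φ.mapEdgeSet.symm e)) e
        = ∑ e, inc G x y e * op G η e := by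
      rw [← Equiv.sum_comp φ.mapEdgeSet]
      apply Finset.sum_congr rfl; intro e _
      rw [inc_aut]
      unfold op
      simp only [Equiv.symm_apply_apply]
    rw [h2]
    by_cases h : ζ = η
    · rw [if_pos h, if_pos (h1.mpr h)]
    · rw [if_neg h, if_neg (fun h' => h (h1.mp h'))]
  · rw [← Equiv.sum_comp φ.mapEdgeSet]
    apply Finset.sum_congr rfl; intro e _
    apply Finset.sum_congr rfl; intro b _
    have h1 : (φ y = φ x ∧ (fun e => ζ (φ.mapEdgeSet.symm e))
        = Function.update (fun e => η (φ.mapEdgeSet.symm e)) (φ.mapEdgeSet e) b)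
        ↔ (y = x ∧ ζ = Function.update η e b) := by
      constructor
      · rintro ⟨h2, h3⟩
        refine ⟨φ.injective h2, ?_⟩
        funext e'
        have h4 := congrFun h3 (φ.mapEdgeSet e')
        simp only [Equiv.symm_apply_apply] at h4
        rw [h4]
        by_cases h5 : e' = e
        · rw [h5, Function.update_self, Function.update_self]
        · rw [Function.update_of_ne h5, Function.update_of_ne (fun h6 => h5 (φ.mapEdgeSet.injective h6)),
            Equiv.symm_apply_apply]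
      · rintro ⟨h2, h3⟩
        refine ⟨by rw [h2], ?_⟩
        funext e'
        rw [h3]
        by_cases h5 : e' = φ.mapEdgeSet e
        · rw [h5, Equiv.symm_apply_apply, Function.update_self, Function.update_self]
        · rw [Function.update_of_ne h5, Function.update_of_ne]
          intro h6
          apply h5
          rw [← h6, Equiv.apply_symm_apply]
    by_cases h : y = x ∧ ζ = Function.update η e b
    · rw [if_pos h, if_pos (h1.mpr h)]
    · rw [if_neg h, if_neg (fun h' => h (h1.mp h'))]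

lemma generator_perm {S : Type*} [Fintype S] [DecidableEq S] (R : Matrix S S ℝ)
    (σ : Equiv.Perm S) (h : ∀ z w, R (σ z) (σ w) = R z w) (z w : S) :
    generator R (σ z) (σ w) = generator R z w := by
  unfold generator
  simp only [Matrix.sub_apply, Matrix.diagonal_apply, EmbeddingLike.apply_eq_iff_eq]
  rw [h]
  congr 1
  split_ifs
  · rw [← Equiv.sum_comp σ]
    apply Finset.sum_congr rfl; intro v _; rw [h]
  · rfl

lemma dynLaw_aut (p : ℝ) (φ : G ≃g G) (z : V × (G.edgeSet → Bool)) :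
    dynLaw G p (autPerm φ z) = dynLaw G p z := by
  obtain ⟨x, η⟩ := z
  rw [autPerm_apply, dynLaw_eq, dynLaw_eq]
  congr 1
  unfold envW
  rw [← Equiv.prod_comp φ.mapEdgeSet]
  apply Finset.prod_congr rfl; intro e _
  simp only [Equiv.symm_apply_apply]

lemma autPerm_mem (d : ℕ) (μ p : ℝ) (φ : G ≃g G) :
    autPerm φ ∈ chainAut (generator (dynRate G d μ p)) (dynLaw G p) :=
  ⟨fun z w => generator_perm _ _ (dynRate_aut G d μ p φ) z w, dynLaw_aut G p φ⟩

/-- Environment average of an invariant function does not depend on the vertex. -/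
lemma env_avg_aut (p : ℝ) (φ : G ≃g G) (f : V × (G.edgeSet → Bool) → ℝ)
    (hf : ∀ z, f (autPerm φ z) = f z) (x : V) :
    ∑ η, envW p η * f (φ x, η) = ∑ η, envW p η * f (x, η) := by
  rw [← Equiv.sum_comp (Equiv.arrowCongr φ.mapEdgeSet (Equiv.refl Bool))]
  apply Finset.sum_congr rfl; intro η _
  have h1 : (Equiv.arrowCongr φ.mapEdgeSet (Equiv.refl Bool)) η
      = fun e => η (φ.mapEdgeSet.symm e) := rfl
  rw [h1]
  have h2 := hf (x, η)
  rw [autPerm_apply] at h2
  rw [h2]
  congr 1
  unfold envW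
  rw [← Equiv.prod_comp φ.mapEdgeSet]
  apply Finset.prod_congr rfl; intro e _
  simp only [Equiv.symm_apply_apply]

/-- **Poincare inequality for invariant functions**. -/
lemma inv_gap [Nonempty V] (d : ℕ) {μ p : ℝ} (hμ0 : 0 < μ) (h0 : 0 < p) (h1 : p < 1)
    (hG : VertexTransitive G) (f : V × (G.edgeSet → Bool) → ℝ)
    (hf : ∀ φ : G ≃g G, ∀ z, f (autPerm φ z) = f z)
    (hf0 : ∑ z, dynLaw G p z * f z = 0) :
    ∑ z, dynLaw G p z * (f z * (generator (dynRate G d μ p) *ᵥ f) z)
      ≤ -(μ * ∑ z, dynLaw G p z * f z ^ 2) := by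
  have hn : (0 : ℝ) < Fintype.card V := by exact_mod_cast Fintype.card_pos
  -- environment averages vanish
  have havg : ∀ x, ∑ η, envW p η * f (x, η) = 0 := by
    intro x
    have h2 : ∀ y, ∑ η, envW p η * f (y, η) = ∑ η, envW p η * f (x, η) := by
      intro y
      obtain ⟨φ, hφ⟩ := hG x y
      rw [← hφ]
      exact env_avg_aut G p φ f (hf φ) x
    rw [dynLaw_sum_mul] at hf0
    simp_rw [h2] at hf0
    rw [Finset.sum_const, Finset.card_univ, nsmul_eq_mul] at hf0
    field_simp at hf0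
    exact hf0
  rw [full_form, dynLaw_sum_mul G p (fun z => f z ^ 2)]
  have hES : ∑ x, ∑ η, envW p η * f (x, η) ^ 2 ≤ formV G p f := by
    unfold formV vr
    apply Finset.sum_le_sum; intro x _
    have h3 := efron_stein h0 h1 (fun η => f (x, η))
    rw [havg x] at h3
    have h4 : ip p (fun η => f (x, η)) (fun η => f (x, η)) = ∑ η, envW p η * f (x, η) ^ 2 := by
      unfold ip
      apply Finset.sum_congr rfl; intro η _; ring
    rw [← h4]
    simpa using h3
  have hW := formW_nonneg G h0 h1 f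
  have h5 : 0 ≤ 1 / (2 * (d : ℝ)) * formW G p f := by positivity
  rw [neg_le_neg_iff]
  calc μ * (1 / (Fintype.card V : ℝ) * ∑ x, ∑ η, envW p η * f (x, η) ^ 2)
      = 1 / (Fintype.card V : ℝ) * (μ * ∑ x, ∑ η, envW p η * f (x, η) ^ 2) := by ring
    _ ≤ 1 / (Fintype.card V : ℝ) * (1 / (2 * (d : ℝ)) * formW G p f + μ * formV G p f) := by
        apply mul_le_mul_of_nonneg_left _ (by positivity)
        have := mul_le_mul_of_nonneg_left hES hμ0.le
        linarith

/-- **Marginal identity**: the environment is autonomous. -/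
lemma marginal (d : ℕ) (μ p t : ℝ) (x : V) (η ζ : G.edgeSet → Bool) :
    ∑ y, exp (t • generator (dynRate G d μ p)) (x, η) (y, ζ)
      = exp (t • (envGen μ p : Matrix (G.edgeSet → Bool) (G.edgeSet → Bool) ℝ)) η ζ := by
  let J : Matrix (V × (G.edgeSet → Bool)) (G.edgeSet → Bool) ℝ :=
    Matrix.of fun z ξ => if z.2 = ξ then 1 else 0
  have hJl : ∀ (M : Matrix (V × (G.edgeSet → Bool)) (V × (G.edgeSet → Bool)) ℝ) z ξ,
      (M * J) z ξ = ∑ y, M z (y, ξ) := by
    intro M z ξ
    rw [Matrix.mul_apply, Fintype.sum_prod_type]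
    apply Finset.sum_congr rfl; intro y _
    simp [J]
  have hJr : ∀ (M : Matrix (G.edgeSet → Bool) (G.edgeSet → Bool) ℝ)
      (z : V × (G.edgeSet → Bool)) ξ, (J * M) z ξ = M z.2 ξ := by
    intro M z ξ
    rw [Matrix.mul_apply]
    simp [J]
  have h1 : (t • generator (dynRate G d μ p)) * J
      = J * (t • (envGen μ p : Matrix (G.edgeSet → Bool) (G.edgeSet → Bool) ℝ)) := by
    ext z ξ
    obtain ⟨x, η⟩ := z
    rw [hJr, Matrix.mul_apply]
    simp only [Matrix.smul_apply, smul_eq_mul]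
    have h2 := dyn_action G d μ p (fun w => J w ξ) x η
    have h3 : ∑ w, t * generator (dynRate G d μ p) (x, η) w * J w ξ
        = t * ∑ w, generator (dynRate G d μ p) (x, η) w * J w ξ := by
      rw [Finset.mul_sum]
      apply Finset.sum_congr rfl; intro w _; ring
    rw [h3, h2]
    congr 1
    have h4 : ∀ (y : V) (ξ' : G.edgeSet → Bool), J (y, ξ') ξ = if ξ' = ξ then 1 else 0 := by
      intro y ξ'; rfl
    simp only [h4]
    simp only [sub_self, mul_zero, Finset.sum_const_zero, zero_add]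
    have h5 := envGen_sum μ p (fun ξ' => if ξ' = ξ then (1 : ℝ) else 0) η
    rw [← h5]
    simp
  have h2 := exp_intertwine _ _ _ h1
  have h3 := congrFun (congrFun h2 (x, η)) ζ
  rw [hJl, hJr] at h3
  exact h3

/-- **Density bound** at time `s`. -/
lemma full_le [Nonempty V] (d : ℕ) {μ p c s : ℝ} (hμ : 0 < μ) (hs : 0 ≤ s) (h0 : 0 < p)
    (h1 : p < 1) (hc0 : 0 < c) (hc : c ≤ p) (hc' : c ≤ 1 - p)
    (z w : V × (G.edgeSet → Bool)) :
    exp (s • generator (dynRate G d μ p)) z w
      ≤ ((Fintype.card V : ℝ) * (1 + Real.exp (-(μ * s)) / c) ^ Fintype.card G.edgeSet)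
        * dynLaw G p w := by
  obtain ⟨x, η⟩ := z
  obtain ⟨y, ζ⟩ := w
  have hn : (0 : ℝ) < Fintype.card V := by exact_mod_cast Fintype.card_pos
  have h2 : exp (s • generator (dynRate G d μ p)) (x, η) (y, ζ)
      ≤ ∑ y, exp (s • generator (dynRate G d μ p)) (x, η) (y, ζ) :=
    Finset.single_le_sum (f := fun y => exp (s • generator (dynRate G d μ p)) (x, η) (y, ζ))
      (fun y _ => kernel_nonneg _ (fun a b => dynRate_nonneg G d hμ.le h0 h1 a b) s hs _ _)
      (Finset.mem_univ y)
  rw [marginal] at h2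
  refine h2.trans ((env_le (mul_nonneg hμ.le hs) h0 h1 hc0 hc hc' η ζ).trans (le_of_eq ?_))
  rw [dynLaw_eq]
  field_simp

end Pool.Agent.W_MP_6c8c83_pr
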