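import Pool.Agent.W_MP_6c8c83_pr.MatExp

/-!
Trace inequality for exponentials: if `A ≤ B` as quadratic forms, then `Tr exp A ≤ Tr exp B`.
-/

namespace Pool.Agent.W_MP_6c8c83_pr

open scoped BigOperators Matrix
open NormedSpace (exp)

variable {S T : Type*} [Fintype S] [DecidableEq S] [Fintype T] [DecidableEq T]

lemma spectral_decomp (A : Matrix S S ℝ) (hA : A.IsHermitian) :
    ∃ (U : Matrix S S ℝ) (l : S → ℝ), Uᵀ * U = 1 ∧ U * Uᵀ = 1 ∧ A * U = U * Matrix.diagonal l := by
  have hstar : star (hA.eigenvectorUnitary : Matrix S S ℝ)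
      = (hA.eigenvectorUnitary : Matrix S S ℝ)ᵀ := by
    ext i j; simp [Matrix.star_apply]
  have h1 : (hA.eigenvectorUnitary : Matrix S S ℝ)ᵀ * (hA.eigenvectorUnitary : Matrix S S ℝ) = 1 := by
    rw [← hstar]; exact Unitary.coe_star_mul_self _
  have h2 : (hA.eigenvectorUnitary : Matrix S S ℝ) * (hA.eigenvectorUnitary : Matrix S S ℝ)ᵀ = 1 := by
    rw [← hstar]; exact Unitary.coe_mul_star_self _
  refine ⟨hA.eigenvectorUnitary, hA.eigenvalues, h1, h2, ?_⟩
  ext i j
  have h := congrFun (hA.mulVec_eigenvectorBasis j) i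
  rw [Matrix.mul_diagonal, Matrix.mul_apply]
  simp only [Matrix.IsHermitian.eigenvectorUnitary_apply]
  simp only [Matrix.mulVec, dotProduct, Pi.smul_apply, smul_eq_mul] at h
  rw [h]; ring

lemma exp_diag (l : S → ℝ) :
    exp (Matrix.diagonal l) = Matrix.diagonal (fun i => Real.exp (l i)) := by
  rw [Matrix.exp_diagonal]
  congr 1
  funext i
  rw [Real.exp_eq_exp_ℝ]
  exact Pi.coe_exp (𝔸 := fun _ => ℝ) l i

lemma trace_exp_le (A B : Matrix S S ℝ) (hA : A.IsHermitian) (hB : B.IsHermitian)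
    (h : ∀ x : S → ℝ, x ⬝ᵥ (A *ᵥ x) ≤ x ⬝ᵥ (B *ᵥ x)) :
    (exp A).trace ≤ (exp B).trace := by
  obtain ⟨U, l, hU1, hU2, hAU⟩ := spectral_decomp A hA
  obtain ⟨W, b, hW1, hW2, hBW⟩ := spectral_decomp B hB
  have hexpA : exp A * U = U * Matrix.diagonal (fun i => Real.exp (l i)) := by
    rw [← exp_diag]; exact exp_intertwine _ _ _ hAU
  have hexpB : exp B * W = W * Matrix.diagonal (fun i => Real.exp (b i)) := by
    rw [← exp_diag]; exact exp_intertwine _ _ _ hBW
  -- conjugated forms
  have hBform : B = W * Matrix.diagonal b * Wᵀ := by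
    rw [← hBW, Matrix.mul_assoc, hW2, Matrix.mul_one]
  have hexpBform : exp B = W * Matrix.diagonal (fun i => Real.exp (b i)) * Wᵀ := by
    rw [← hexpB, Matrix.mul_assoc, hW2, Matrix.mul_one]
  have htrA : (exp A).trace = ∑ i, Real.exp (l i) := by
    have h1 : exp A = U * Matrix.diagonal (fun i => Real.exp (l i)) * Uᵀ := by
      rw [← hexpA, Matrix.mul_assoc, hU2, Matrix.mul_one]
    rw [h1, Matrix.trace_mul_comm, ← Matrix.mul_assoc, hU1, Matrix.one_mul, Matrix.trace_diagonal]
  have htrB : (exp B).trace = ∑ i, (Uᵀ * exp B * U) i i := by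
    have h1 : (Uᵀ * exp B * U).trace = (exp B).trace := by
      rw [Matrix.mul_assoc, Matrix.trace_mul_comm, Matrix.mul_assoc, hU2, Matrix.mul_one]
    rw [← h1, Matrix.trace]; rfl
  rw [htrA, htrB]
  apply Finset.sum_le_sum
  intro i _
  -- `c = Wᵀ u_i`
  set c : S → ℝ := fun j => (Wᵀ * U) j i with hc
  have hcsum : ∑ j, c j ^ 2 = 1 := by
    have h1 : ((Wᵀ * U)ᵀ * (Wᵀ * U)) i i = 1 := by
      rw [Matrix.transpose_mul, Matrix.transpose_transpose, Matrix.mul_assoc,
        ← Matrix.mul_assoc W, hW2, Matrix.one_mul, hU1, Matrix.one_apply_eq]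
    rw [Matrix.mul_apply] at h1
    rw [← h1]
    apply Finset.sum_congr rfl
    intro j _
    rw [Matrix.transpose_apply, hc]; ring
  have hquad : ∀ f : S → ℝ, (Uᵀ * (W * Matrix.diagonal f * Wᵀ) * U) i i = ∑ j, c j ^ 2 * f j := by
    intro f
    have h1 : Uᵀ * (W * Matrix.diagonal f * Wᵀ) * U
        = (Wᵀ * U)ᵀ * (Matrix.diagonal f * (Wᵀ * U)) := by
      rw [Matrix.transpose_mul, Matrix.transpose_transpose]
      simp only [Matrix.mul_assoc]
    rw [h1, Matrix.mul_apply]
    apply Finset.sum_congr rfl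
    intro j _
    rw [Matrix.transpose_apply, Matrix.diagonal_mul, hc]; ring
  have hform : ∀ M : Matrix S S ℝ, (fun k => U k i) ⬝ᵥ (M *ᵥ (fun k => U k i))
      = (Uᵀ * M * U) i i := by
    intro M
    rw [Matrix.mul_assoc, Matrix.mul_apply]
    simp only [dotProduct, Matrix.mulVec, Matrix.transpose_apply, Matrix.mul_apply]
  have hl : l i = (Uᵀ * A * U) i i := by
    rw [Matrix.mul_assoc, hAU, ← Matrix.mul_assoc, hU1, Matrix.one_mul, Matrix.diagonal_apply_eq]
  have hle : l i ≤ ∑ j, c j ^ 2 * b j := by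
    have := h (fun k => U k i)
    rw [hform A, hform B, ← hl] at this
    rw [hBform, hquad b] at this
    exact this
  calc Real.exp (l i) ≤ Real.exp (∑ j, c j ^ 2 * b j) := Real.exp_le_exp.mpr hle
    _ ≤ ∑ j, c j ^ 2 * Real.exp (b j) := by
      have := convexOn_exp.map_sum_le (t := Finset.univ) (w := fun j => c j ^ 2) (p := b)
        (fun j _ => sq_nonneg _) hcsum (fun j _ => Set.mem_univ _)
      simpa [smul_eq_mul] using this
    _ = (Uᵀ * exp B * U) i i := by
      rw [hexpBform, hquad (fun j => Real.exp (b j))]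

/-- The same inequality for two matrices that are reversible with respect to the same weights. -/
lemma trace_exp_le_weighted (π : S → ℝ) (hπ : ∀ z, 0 < π z) (A B : Matrix S S ℝ)
    (hA : ∀ z w, π z * A z w = π w * A w z) (hB : ∀ z w, π z * B z w = π w * B w z)
    (h : ∀ f : S → ℝ, ∑ z, π z * (f z * (A *ᵥ f) z) ≤ ∑ z, π z * (f z * (B *ᵥ f) z)) :
    (exp A).trace ≤ (exp B).trace := by
  set r : S → ℝ := fun z => Real.sqrt (π z) with hr
  have hrpos : ∀ z, 0 < r z := fun z => Real.sqrt_pos.mpr (hπ z)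
  have hrne : ∀ z, r z ≠ 0 := fun z => (hrpos z).ne'
  have hrsq : ∀ z, r z * r z = π z := fun z => Real.mul_self_sqrt (hπ z).le
  -- symmetrization
  let sy : Matrix S S ℝ → Matrix S S ℝ := fun M => Matrix.of (fun z w => r z * M z w / r w)
  have hsyH : ∀ M : Matrix S S ℝ, (∀ z w, π z * M z w = π w * M w z) → (sy M).IsHermitian := by
    intro M hM
    ext z w
    simp only [sy, Matrix.conjTranspose_apply, Matrix.of_apply, star_trivial]
    rw [div_eq_div_iff (hrne z) (hrne w)]
    have := hM z w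
    rw [← hrsq z, ← hrsq w] at this
    linear_combination -this
  have hsyD : ∀ M : Matrix S S ℝ, sy M * Matrix.diagonal r = Matrix.diagonal r * M := by
    intro M
    ext z w
    rw [Matrix.mul_diagonal, Matrix.diagonal_mul]
    simp only [sy, Matrix.of_apply]
    field_simp [hrne w]
  have hDD : Matrix.diagonal r * Matrix.diagonal (fun z => (r z)⁻¹) = 1 := by
    rw [Matrix.diagonal_mul_diagonal]
    have : (fun i => r i * (r i)⁻¹) = fun _ => (1 : ℝ) := by
      funext i; exact mul_inv_cancel₀ (hrne i)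
    rw [this, Matrix.diagonal_one]
  have hDD' : Matrix.diagonal (fun z => (r z)⁻¹) * Matrix.diagonal r = 1 := by
    rw [Matrix.diagonal_mul_diagonal]
    have : (fun i => (r i)⁻¹ * r i) = fun _ => (1 : ℝ) := by
      funext i; exact inv_mul_cancel₀ (hrne i)
    rw [this, Matrix.diagonal_one]
  have htr : ∀ M : Matrix S S ℝ, (exp (sy M)).trace = (exp M).trace := by
    intro M
    have h1 := exp_intertwine _ _ _ (hsyD M)
    have h2 : exp (sy M) = Matrix.diagonal r * exp M * Matrix.diagonal (fun z => (r z)⁻¹) := by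
      rw [← h1, Matrix.mul_assoc, hDD, Matrix.mul_one]
    rw [h2, Matrix.trace_mul_comm, ← Matrix.mul_assoc, hDD', Matrix.one_mul]
  rw [← htr A, ← htr B]
  apply trace_exp_le _ _ (hsyH A hA) (hsyH B hB)
  intro x
  have hform : ∀ M : Matrix S S ℝ, x ⬝ᵥ (sy M *ᵥ x)
      = ∑ z, π z * ((x z / r z) * (M *ᵥ (fun w => x w / r w)) z) := by
    intro M
    simp only [dotProduct, Matrix.mulVec, sy, Matrix.of_apply]
    apply Finset.sum_congr rfl
    intro z _
    rw [Finset.mul_sum, Finset.mul_sum, Finset.mul_sum]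
    apply Finset.sum_congr rfl
    intro w _
    rw [← hrsq z]
    field_simp [hrne z, hrne w]
  rw [hform A, hform B]
  exact h (fun w => x w / r w)

end Pool.Agent.W_MP_6c8c83_pr
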